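import Pool.Agent.H95.CF.Targets
import Pool.Agent.H91.CF.Main

/-!
# Complete family, section 2: targets, the bridge to the interface
-/

set_option autoImplicit false

open NumberField Module MeasureTheory Set Filter
open scoped nonZeroDivisors Real

namespace Pool.Agent.H95.CF

open Pool.Agent.H31.CN

/-- (NPQ) the number of the unit lines. -/
def T_NPQ : Prop :=
  ∀ (f D p : ℕ) (Q : QF), Pool.Agent.H91.CF.Fu D → Q ∈ FD D → p.Prime → p ∣ f →
    Pool.Agent.H91.CF.npQ f p Q = Pool.Agent.H91.CF.npD f p D ∧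
    0 < Pool.Agent.H91.CF.npD f p D

/-- (PCT) forms of a fundamental discriminant are primitive. -/
def T_PCT : Prop :=
  ∀ D : ℕ, Pool.Agent.H91.CF.Fu D →
    (∀ Q ∈ FD D, ∀ t : ℕ, (t : ℤ) ∣ Q.1 → (t : ℤ) ∣ Q.2.1 → (t : ℤ) ∣ Q.2.2 → t = 1) ∧
    Pool.Agent.H91.CF.Q1 D = pfm D

end Pool.Agent.H95.CF
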