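import Pool.Agent.H95.CF.FB

/-!
# Complete family, section 2: targets (classes of vectors, the kernel, the `L`-functions)
-/

set_option autoImplicit false

open NumberField Module MeasureTheory Set Filter
open scoped nonZeroDivisors Real

namespace Pool.Agent.H95.CF

open Pool.Agent.H31.CN

/-- the determinant of two vectors -/
def dt (v w : ℤ × ℤ) : ℤ := v.1 * w.2 - v.2 * w.1

/-- the value at the vector `v` is prime to `f` -/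
def Un (f : ℕ) (Q : QF) (v : ℤ × ℤ) : Prop := IsCoprime (val Q v) (f : ℤ)

/-- the polar part of the Epstein zeta functions of discriminant `-Δ` -/
noncomputable def Rs (Δ : ℝ) (s : ℂ) : ℂ :=
  1 / 2 * ((2 * π / Real.sqrt Δ : ℝ) : ℂ) ^ s * (Complex.Gamma s)⁻¹ / (s - 1)

open Classical in
/-- the kernel, with the local numbers `n` -/
noncomputable def kr (f : ℕ) (n : ℕ → ℕ) (v w : ℤ × ℤ) : ℝ :=
  ∏ p ∈ f.primeFactors, ((if (p : ℤ) ^ (f.factorization p) ∣ dt v w then 1 else 0) -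
    (if (p : ℤ) ^ (f.factorization p - 1) ∣ dt v w then 1 else 0) / (n p : ℝ))

open Classical in
/-- the kernel on pairs of vectors with values prime to `f` -/
noncomputable def kern (f : ℕ) (n : ℕ → ℕ) (Q : QF) (v w : ℤ × ℤ) : ℝ :=
  if Un f Q v ∧ Un f Q w then kr f n v w else 0

/-- the weight of a vector -/
noncomputable def om (S : Finset ℕ) (c : ℕ → ℝ) (f D : ℕ) (Q : QF) (v : ℤ × ℤ) : ℝ :=
  (∑ m ∈ S, c m * Vk (val Q v / (m * (f * Real.sqrt D))) * nu m Q v) / Real.sqrt (val Q v)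

/-- the subgroups `H d` of the ring class group, with the orders of the `H p` -/
structure HG (K : Type) [Field K] [NumberField K] (f : ℕ) (G : Type) [CommGroup G]
    (cl : Ideal (𝓞 K) → G) (n : ℕ → ℕ) (H : ℕ → Subgroup G) : Prop where
  car : ∀ d, d ∣ f → Squarefree d → (H d : Set G) = Hd K f cl d
  sup : ∀ d, d ∣ f → Squarefree d → H d = ⨆ p ∈ d.primeFactors, H p
  card : ∀ d, d ∣ f → Squarefree d → Nat.card (H d) = ∏ p ∈ d.primeFactors, n p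

/-- representatives of the classes by vectors -/
structure RV (K : Type) [Field K] [NumberField K] (f : ℕ) (G : Type) [CommGroup G]
    (cl : Ideal (𝓞 K) → G) (Q : ClassGroup (𝓞 K) → QF)
    (b : ClassGroup (𝓞 K) → ℤ × ℤ → (Ideal (𝓞 K))⁰) (C : G → ClassGroup (𝓞 K))
    (V : G → ℤ × ℤ) : Prop where
  cop : ∀ g, IsCoprime (V g).1 (V g).2
  un : ∀ g, Un f (Q (C g)) (V g)
  cl : ∀ g, cl (b (C g) (V g)) = g

/-! ### Classes of vectors -/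

/-- (PRN) ideals prime to `f`. -/
def T_PRN : Prop :=
  ∀ (K : Type) [Field K] [NumberField K] (f : ℕ) (J : Ideal (𝓞 K)), J ≠ ⊥ →
    (Pr K f J ↔ Nat.Coprime (Ideal.absNorm J) f)

/-- (DE1) the classes of two vectors differ by an element of `H d`: necessary condition. -/
def T_DE1 : Prop :=
  ∀ (D : ℕ) (K : Type) [Field K] [NumberField K] (σ : K →+* ℂ) (Q : ClassGroup (𝓞 K) → QF)
    (I : ClassGroup (𝓞 K) → (Ideal (𝓞 K))⁰) (α β : ClassGroup (𝓞 K) → 𝓞 K)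
    (b : ClassGroup (𝓞 K) → ℤ × ℤ → (Ideal (𝓞 K))⁰) (f : ℕ) (G : Type) [CommGroup G]
    (cl : Ideal (𝓞 K) → G), 4 < D → Module.finrank ℚ K = 2 → discr K = -(D : ℤ) →
    FB D K σ Q I α β b → 1 ≤ f → RG K f G cl → ∀ (d : ℕ), d ∣ f →
    ∀ (c c' : ClassGroup (𝓞 K)) (v v' : ℤ × ℤ), v ≠ 0 → v' ≠ 0 → Un f (Q c) v → Un f (Q c') v' →
      (cl (b c v))⁻¹ * cl (b c' v') ∈ Hd K f cl d → c = c' ∧ ((f / d : ℕ) : ℤ) ∣ dt v v'

/-- (DE2) the classes of two vectors differ by an element of `H d`: sufficient condition. -/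
def T_DE2 : Prop :=
  ∀ (D : ℕ) (K : Type) [Field K] [NumberField K] (σ : K →+* ℂ) (Q : ClassGroup (𝓞 K) → QF)
    (I : ClassGroup (𝓞 K) → (Ideal (𝓞 K))⁰) (α β : ClassGroup (𝓞 K) → 𝓞 K)
    (b : ClassGroup (𝓞 K) → ℤ × ℤ → (Ideal (𝓞 K))⁰) (f : ℕ) (G : Type) [CommGroup G]
    (cl : Ideal (𝓞 K) → G), FB D K σ Q I α β b → 1 ≤ f → RG K f G cl → ∀ (d : ℕ), d ∣ f →
    ∀ (c : ClassGroup (𝓞 K)) (v v' : ℤ × ℤ), v ≠ 0 → v' ≠ 0 → Un f (Q c) v → Un f (Q c) v' →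
      ((f / d : ℕ) : ℤ) ∣ dt v v' → (cl (b c v))⁻¹ * cl (b c v') ∈ Hd K f cl d

/-- (REP) every class is the class of a primitive vector. -/
def T_REP : Prop :=
  ∀ (D : ℕ) (K : Type) [Field K] [NumberField K] (σ : K →+* ℂ) (Q : ClassGroup (𝓞 K) → QF)
    (I : ClassGroup (𝓞 K) → (Ideal (𝓞 K))⁰) (α β : ClassGroup (𝓞 K) → 𝓞 K)
    (b : ClassGroup (𝓞 K) → ℤ × ℤ → (Ideal (𝓞 K))⁰) (f : ℕ) (G : Type) [CommGroup G]
    (cl : Ideal (𝓞 K) → G), FB D K σ Q I α β b → 1 ≤ f → RG K f G cl →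
    ∃ (C : G → ClassGroup (𝓞 K)) (V : G → ℤ × ℤ), RV K f G cl Q b C V

open Classical in
/-- (NCU) the sum of a primitive character over the classes whose lattice contains `u`. -/
def T_NCU : Prop :=
  ∀ (D : ℕ) (K : Type) [Field K] [NumberField K] (σ : K →+* ℂ) (Q : ClassGroup (𝓞 K) → QF)
    (I : ClassGroup (𝓞 K) → (Ideal (𝓞 K))⁰) (α β : ClassGroup (𝓞 K) → 𝓞 K)
    (b : ClassGroup (𝓞 K) → ℤ × ℤ → (Ideal (𝓞 K))⁰) (f : ℕ) (G : Type) [CommGroup G] [Fintype G]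
    (cl : Ideal (𝓞 K) → G) (C : G → ClassGroup (𝓞 K)) (V : G → ℤ × ℤ) (φ : G →* ℂˣ),
    4 < D → Module.finrank ℚ K = 2 → discr K = -(D : ℤ) →
    FB D K σ Q I α β b → 1 ≤ f → RG K f G cl → RV K f G cl Q b C V → Prim K f cl φ →
    ∀ (c : ClassGroup (𝓞 K)) (u : ℤ × ℤ), u ≠ 0 →
      ∑ g, (if C g = c ∧ (f : ℤ) ∣ dt (V g) u then ((φ g : ℂˣ) : ℂ) else 0) =
        if Un f (Q c) u then ((φ (cl (b c u)) : ℂˣ) : ℂ) else 0

/-! ### `L`-functions -/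

/-- (EPR) the Epstein zeta function with its polar part. -/
def T_EPR : Prop :=
  ∀ A B Δ : ℝ, 0 < A → 0 < Δ → ∃ F E : ℂ → ℂ, DifferentiableOn ℂ F {1}ᶜ ∧ Differentiable ℂ E ∧
    (∀ s : ℂ, s ≠ 1 → F s = E s + Rs Δ s) ∧
    (∀ s : ℂ, 1 < s.re → HasSum (fun v : ℤ × ℤ => if v = 0 then 0 else
      ((qd A B Δ v : ℝ) : ℂ) ^ (-s)) (2 * F s)) ∧
    F (1 / 2) = ((zf A B Δ : ℝ) : ℂ)

open Classical in
/-- (EPG) the Epstein zeta function of the lattice of the vectors proportional to `v` modulo `f`. -/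
def T_EPG : Prop :=
  ∀ (D f : ℕ) (Q : QF) (v : ℤ × ℤ), 0 < D → 1 ≤ f → Q ∈ FD D → IsCoprime v.1 v.2 →
    ∃ F E : ℂ → ℂ, DifferentiableOn ℂ F {1}ᶜ ∧ Differentiable ℂ E ∧
    (∀ s : ℂ, s ≠ 1 → F s = E s + Rs ((f : ℝ) ^ 2 * D) s) ∧
    (∀ s : ℂ, 1 < s.re → HasSum (fun u : ℤ × ℤ => if u ≠ 0 ∧ (f : ℤ) ∣ dt v u then
      ((val Q u : ℤ) : ℂ) ^ (-s) else 0) (2 * F s)) ∧
    HasSum (fun u : ℤ × ℤ => if u ≠ 0 ∧ (f : ℤ) ∣ dt v u then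
      ((Vk (val Q u / (f * Real.sqrt D)) / Real.sqrt (val Q u) : ℝ) : ℂ) else 0) (F (1 / 2))

open Classical in
/-- (SGJ) sums over the classes and sums over the ideals. -/
def T_SGJ : Prop :=
  ∀ (D : ℕ) (K : Type) [Field K] [NumberField K] (σ : K →+* ℂ) (Q : ClassGroup (𝓞 K) → QF)
    (I : ClassGroup (𝓞 K) → (Ideal (𝓞 K))⁰) (α β : ClassGroup (𝓞 K) → 𝓞 K)
    (b : ClassGroup (𝓞 K) → ℤ × ℤ → (Ideal (𝓞 K))⁰) (f : ℕ) (G : Type) [CommGroup G] [Fintype G]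
    (cl : Ideal (𝓞 K) → G) (C : G → ClassGroup (𝓞 K)) (V : G → ℤ × ℤ) (φ : G →* ℂˣ) (w : ℕ → ℂ)
    (a : G → ℂ), 4 < D → Module.finrank ℚ K = 2 → discr K = -(D : ℤ) →
    FB D K σ Q I α β b → 1 ≤ f → RG K f G cl → RV K f G cl Q b C V → Prim K f cl φ →
    (∀ c, Summable (fun u : ℤ × ℤ => if u = 0 then 0 else
      w (Ideal.absNorm (b c u : Ideal (𝓞 K))))) →
    (∀ g, HasSum (fun u : ℤ × ℤ => if u ≠ 0 ∧ (f : ℤ) ∣ dt (V g) u then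
      w (Ideal.absNorm (b (C g) u : Ideal (𝓞 K))) else 0) (a g)) →
    HasSum (fun J : (Ideal (𝓞 K))⁰ => (if Pr K f J then ((φ (cl J) : ℂˣ) : ℂ) else 0) *
      w (Ideal.absNorm (J : Ideal (𝓞 K)))) (∑ g, ((φ g : ℂˣ) : ℂ) * (a g / 2)) ∧
    (HasSum (fun J : (Ideal (𝓞 K))⁰ => (if Pr K f J then ((φ (cl J) : ℂˣ) : ℂ) else 0) *
      w (Ideal.absNorm (J : Ideal (𝓞 K))))
      (∑ c, (∑' u : ℤ × ℤ, if u ≠ 0 ∧ Un f (Q c) u then ((φ (cl (b c u)) : ℂˣ) : ℂ) *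
        w (Ideal.absNorm (b c u : Ideal (𝓞 K))) else 0) / 2))

open Classical in
/-- (LFN) the `L`-functions. -/
def T_LFN : Prop :=
  ∀ (D : ℕ) (K : Type) [Field K] [NumberField K] (σ : K →+* ℂ) (Q : ClassGroup (𝓞 K) → QF)
    (I : ClassGroup (𝓞 K) → (Ideal (𝓞 K))⁰) (α β : ClassGroup (𝓞 K) → 𝓞 K)
    (b : ClassGroup (𝓞 K) → ℤ × ℤ → (Ideal (𝓞 K))⁰) (f : ℕ) (G : Type) [CommGroup G] [Fintype G]
    (cl : Ideal (𝓞 K) → G) (φ : G →* ℂˣ),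
    4 < D → Module.finrank ℚ K = 2 → discr K = -(D : ℤ) →
    FB D K σ Q I α β b → 1 ≤ f → RG K f G cl → Prim K f cl φ →
    ∃ F : ℂ → ℂ, IsLg K f cl φ F ∧ (φ ≠ 1 → ∃ E : ℂ → ℂ, Differentiable ℂ E ∧
      ∀ s : ℂ, s ≠ 1 → F s = E s) ∧
      HasSum (fun J : (Ideal (𝓞 K))⁰ => (if Pr K f J then ((φ (cl J) : ℂˣ) : ℂ) else 0) *
        ((Vk (Ideal.absNorm (J : Ideal (𝓞 K)) / (f * Real.sqrt D)) /
          Real.sqrt (Ideal.absNorm (J : Ideal (𝓞 K))) : ℝ) : ℂ)) (F (1 / 2) / 2)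

/-- (LFE) the `L`-functions of the nontrivial primitive characters are entire. -/
def T_LFE : Prop :=
  ∀ (D : ℕ) (K : Type) [Field K] [NumberField K] (f : ℕ) (G : Type) [CommGroup G] [Finite G]
    (cl : Ideal (𝓞 K) → G) (φ : G →* ℂˣ) (F : ℂ → ℂ),
    4 < D → Module.finrank ℚ K = 2 → discr K = -(D : ℤ) →
    (∀ Q ∈ FD D, ∀ t : ℕ, (t : ℤ) ∣ Q.1 → (t : ℤ) ∣ Q.2.1 → (t : ℤ) ∣ Q.2.2 → t = 1) →
    1 ≤ f → RG K f G cl → Prim K f cl φ → φ ≠ 1 → IsLg K f cl φ F →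
    ∃ E : ℂ → ℂ, Differentiable ℂ E ∧ ∀ s : ℂ, s ≠ 1 → E s = F s

/-- (MUL) the Hecke relation for sums over ideals with a multiplicative function. -/
def T_MUL : Prop :=
  ∀ (K : Type) [Field K] [NumberField K] (χ : (Ideal (𝓞 K))⁰ → ℂ) (q : ℝ) (m : ℕ), 1 ≤ m →
    (∀ P J : (Ideal (𝓞 K))⁰, Ideal.absNorm (P : Ideal (𝓞 K)) = m → χ (P * J) = χ P * χ J) →
    HasSum (fun J : (Ideal (𝓞 K))⁰ => χ J *
      ((Vk (Ideal.absNorm (J : Ideal (𝓞 K)) / q) /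
        Real.sqrt (Ideal.absNorm (J : Ideal (𝓞 K))) : ℝ) : ℂ)) 0 →
    HasSum (fun J : (Ideal (𝓞 K))⁰ => χ J *
      ((Vk (Ideal.absNorm (J : Ideal (𝓞 K)) / (m * q)) *
        Nat.card {P : Ideal (𝓞 K) // Ideal.absNorm P = m ∧ P ∣ (J : Ideal (𝓞 K))} /
        Real.sqrt (Ideal.absNorm (J : Ideal (𝓞 K))) : ℝ) : ℂ)) 0

/-- (OMS) the weights are summable. -/
def T_OMS : Prop :=
  ∀ (S : Finset ℕ) (c : ℕ → ℝ) (f D : ℕ) (Q : QF), (∀ m ∈ S, Squarefree m) → 1 ≤ f → 0 < D →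
    Q ∈ FD D → Summable (fun v : ℤ × ℤ => |om S c f D Q v|) ∧ om S c f D Q 0 = 0

open Classical in
/-- (ZRO) the consequence of the vanishing at `1/2`. -/
def T_ZRO : Prop :=
  ∀ (D : ℕ) (K : Type) [Field K] [NumberField K] (σ : K →+* ℂ) (Q : ClassGroup (𝓞 K) → QF)
    (I : ClassGroup (𝓞 K) → (Ideal (𝓞 K))⁰) (α β : ClassGroup (𝓞 K) → 𝓞 K)
    (b : ClassGroup (𝓞 K) → ℤ × ℤ → (Ideal (𝓞 K))⁰) (f : ℕ) (G : Type) [CommGroup G] [Fintype G]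
    (cl : Ideal (𝓞 K) → G) (φ : G →* ℂˣ) (S : Finset ℕ) (cc : ℕ → ℝ),
    4 < D → Module.finrank ℚ K = 2 → discr K = -(D : ℤ) →
    FB D K σ Q I α β b → 1 ≤ f → RG K f G cl → Prim K f cl φ →
    (∀ m ∈ S, Squarefree m ∧ Nat.Coprime m f) → ¬ NVg K f cl φ →
    ∑ c, ∑' u : ℤ × ℤ, (if Un f (Q c) u then ((φ (cl (b c u)) : ℂˣ) : ℂ) *
      ((om S cc f D (Q c) u : ℝ) : ℂ) else 0) = 0

/-! ### Cauchy's inequality -/

open Classical in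
/-- the kernel of a family of subgroups -/
noncomputable def Kg {G : Type} [CommGroup G] (P : Finset ℕ) (H : ℕ → Subgroup G) (x : G) : ℝ :=
  ∑ T ∈ P.powerset, (-1) ^ T.card * (if x ∈ (⨆ p ∈ T, H p : Subgroup G) then 1 else 0) /
    (Nat.card (⨆ p ∈ T, H p : Subgroup G) : ℝ)

/-- (GK) Cauchy's inequality over the primitive characters. -/
def T_GK : Prop :=
  ∀ (G : Type) [CommGroup G] [Fintype G] (P : Finset ℕ) (H : ℕ → Subgroup G) (W : G → ℝ),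
    0 ≤ ∑ g, ∑ g', W g * W g' * Kg P H (g⁻¹ * g') ∧
    (Fintype.card G : ℝ) * (∑ g, W g * Kg P H g) ^ 2 ≤
      (Nat.card {φ : G →* ℂˣ // (∀ p ∈ P, ∃ g ∈ H p, φ g ≠ 1) ∧
        ∑ g, ((φ g : ℂˣ) : ℂ) * ((W g : ℝ) : ℂ) ≠ 0} : ℝ) *
        ∑ g, ∑ g', W g * W g' * Kg P H (g⁻¹ * g')

open Classical in
/-- (KER) the kernel in terms of vectors. -/
def T_KER : Prop :=
  ∀ (D : ℕ) (K : Type) [Field K] [NumberField K] (σ : K →+* ℂ) (Q : ClassGroup (𝓞 K) → QF)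
    (I : ClassGroup (𝓞 K) → (Ideal (𝓞 K))⁰) (α β : ClassGroup (𝓞 K) → 𝓞 K)
    (b : ClassGroup (𝓞 K) → ℤ × ℤ → (Ideal (𝓞 K))⁰) (f : ℕ) (G : Type) [CommGroup G] [Fintype G]
    (cl : Ideal (𝓞 K) → G) (n : ℕ → ℕ) (H : ℕ → Subgroup G),
    4 < D → Module.finrank ℚ K = 2 → discr K = -(D : ℤ) →
    FB D K σ Q I α β b → 1 ≤ f → RG K f G cl → HG K f G cl n H →
    ∀ (c c' : ClassGroup (𝓞 K)) (v v' : ℤ × ℤ), v ≠ 0 → v' ≠ 0 → Un f (Q c) v → Un f (Q c') v' →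
      Kg f.primeFactors H ((cl (b c v))⁻¹ * cl (b c' v')) = if c = c' then kr f n v v' else 0

/-- (PRF) the number of the primitive characters whose `L`-function does not vanish at `1/2`. -/
def T_PRF : Prop :=
  ∀ (D : ℕ) (K : Type) [Field K] [NumberField K] (f : ℕ) (G : Type) [CommGroup G] [Finite G]
    (cl : Ideal (𝓞 K) → G) (n : ℕ → ℕ) (H : ℕ → Subgroup G),
    4 < D → Module.finrank ℚ K = 2 → discr K = -(D : ℤ) →
    (∀ Q ∈ FD D, ∀ t : ℕ, (t : ℤ) ∣ Q.1 → (t : ℤ) ∣ Q.2.1 → (t : ℤ) ∣ Q.2.2 → t = 1) →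
    1 ≤ f → RG K f G cl → HG K f G cl n H →
    ∃ Q : ClassGroup (𝓞 K) → QF, (∀ c, Q c ∈ FD D) ∧
      (∀ c c' g, act (Q c) g = Q c' → c = c' ∧ (g = 1 ∨ g = -1)) ∧
      ∀ (S : Finset ℕ) (cc : ℕ → ℝ), (∀ m ∈ S, Squarefree m ∧ Nat.Coprime m f) →
        (Nat.card G : ℝ) * (∑' v : ℤ × ℤ, om S cc f D (pfm D) v *
          kern f n (pfm D) (1, 0) v) ^ 2 ≤
        (Nat.card {φ : G →* ℂˣ // Prim K f cl φ ∧ NVg K f cl φ} : ℝ) *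
          ∑ᶠ c : ClassGroup (𝓞 K), ∑' x : (ℤ × ℤ) × (ℤ × ℤ),
            om S cc f D (Q c) x.1 * om S cc f D (Q c) x.2 * kern f n (Q c) x.1 x.2

end Pool.Agent.H95.CF
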