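import Pool.Agent.H95.CF.Forms
import Pool.Agent.H95.CN.OB5

/-!
# A system of forms for the ideal classes of an imaginary quadratic field
-/

set_option autoImplicit false

open NumberField Module
open scoped nonZeroDivisors ComplexConjugate

namespace Pool.Agent.H95.CF

open Pool.Agent.H31.CN Pool.Agent.H46.CN

/-- a system of forms for the ideal classes: for the class `c` an ideal `I c` in the inverse class
with the oriented basis `α c`, `β c`, its form `Q c`, and for a vector `v ≠ 0` the ideal `b c v` in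
the class `c` -/
structure FB (D : ℕ) (K : Type) [Field K] [NumberField K] (σ : K →+* ℂ)
    (Q : ClassGroup (𝓞 K) → QF) (I : ClassGroup (𝓞 K) → (Ideal (𝓞 K))⁰)
    (α β : ClassGroup (𝓞 K) → 𝓞 K)
    (b : ClassGroup (𝓞 K) → ℤ × ℤ → (Ideal (𝓞 K))⁰) : Prop where
  ob : ∀ c, OB K σ (I c : Ideal (𝓞 K)) (α c) (β c) (Q c)
  fd : ∀ c, Q c ∈ FD D
  inq : ∀ c c' g, act (Q c) g = Q c' → c = c' ∧ (g = 1 ∨ g = -1)
  one : Q 1 = pfm D
  bone : b 1 (1, 0) = 1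
  spn : ∀ c v, v ≠ 0 → Ideal.span {(v.1 : 𝓞 K) * α c + (v.2 : 𝓞 K) * β c} =
    (b c v : Ideal (𝓞 K)) * I c
  cls : ∀ c v, v ≠ 0 → ClassGroup.mk0 (b c v) = c
  nrm : ∀ c v, v ≠ 0 → (Ideal.absNorm (b c v : Ideal (𝓞 K)) : ℤ) = val (Q c) v
  sur : ∀ J, ∃ v, v ≠ 0 ∧ b (ClassGroup.mk0 J) v = J
  eqv : ∀ c v v', v ≠ 0 → v' ≠ 0 → (b c v = b c v' ↔ v' = v ∨ v' = -v)
  nu : ∀ c v m, v ≠ 0 → Squarefree m → nu m (Q c) v =
    Nat.card {P : Ideal (𝓞 K) // Ideal.absNorm P = m ∧ P ∣ (b c v : Ideal (𝓞 K))}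

theorem fb_exists (D : ℕ) (K : Type) [Field K] [NumberField K] (σ : K →+* ℂ) (hD : 4 < D)
    (hfin : Module.finrank ℚ K = 2) (hdis : discr K = -(D : ℤ))
    (hpr : ∀ Q ∈ FD D, ∀ t : ℕ, (t : ℤ) ∣ Q.1 → (t : ℤ) ∣ Q.2.1 → (t : ℤ) ∣ Q.2.2 → t = 1) :
    ∃ (Q : ClassGroup (𝓞 K) → QF) (I : ClassGroup (𝓞 K) → (Ideal (𝓞 K))⁰)
      (α β : ClassGroup (𝓞 K) → 𝓞 K) (b : ClassGroup (𝓞 K) → ℤ × ℤ → (Ideal (𝓞 K))⁰),
      FB D K σ Q I α β b := by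
  have hD3 : 3 < D := by omega
  have hex : ∀ c : ClassGroup (𝓞 K), ∃ (I : (Ideal (𝓞 K))⁰) (α β : 𝓞 K) (Q : QF),
      ClassGroup.mk0 I = c⁻¹ ∧ Q ∈ FD D ∧ OB K σ I α β Q ∧ (c = 1 → Q = pfm D ∧ I = 1) := by
    intro c
    by_cases hc : c = 1
    · obtain ⟨hp, α, β, h⟩ := ob0 D K σ hD3 hfin hdis
      have h' : OB K σ ((1 : (Ideal (𝓞 K))⁰) : Ideal (𝓞 K)) α β (pfm D) := by
        rw [Submonoid.coe_one, Ideal.one_eq_top]
        exact h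
      exact ⟨1, α, β, _, by rw [hc, map_one, inv_one], hp, h', fun _ => ⟨rfl, rfl⟩⟩
    · obtain ⟨I, hI⟩ := ClassGroup.mk0_surjective (c⁻¹)
      obtain ⟨α, β, Q, hQ, h⟩ := ob1 D K σ hD3 hfin hdis I (nonZeroDivisors.coe_ne_zero I)
      exact ⟨I, α, β, Q, hI, hQ, h, fun h1 => absurd h1 hc⟩
  choose I α β Q hI hQ hOB hQ1 using hex
  have hb := fun c => ob3 D K σ hD hfin hdis (I c) (α c) (β c) (Q c) (hOB c)
  choose b hb1 hb2 hb3 hb4 using hb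
  refine ⟨Q, I, α, β, b, hOB, hQ, ?_, (hQ1 1 rfl).1, ?_, hb1, ?_, fun c v hv => (hb2 c v hv).2,
    ?_, hb4, ?_⟩
  · intro c c' g hg
    have h1 := pf_OB2 K σ (I c) (I c') _ _ _ _ _ _ g (hOB c) (hOB c') hg
    rw [hI, hI, inv_inj] at h1
    subst h1
    exact ⟨rfl, aut D (Q c) g hD (hpr (Q c) (hQ c)) (hQ c) hg⟩
  · have h0 : ((1, 0) : ℤ × ℤ) ≠ 0 := by simp
    have h1 := (hb2 1 (1, 0) h0).2
    rw [(hQ1 1 rfl).1] at h1
    have h2 : val (pfm D) (1, 0) = 1 := by simp [val, pfm]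
    rw [h2] at h1
    have h3 : Ideal.absNorm ((b 1 (1, 0) : (Ideal (𝓞 K))⁰) : Ideal (𝓞 K)) = 1 := by
      exact_mod_cast h1
    apply Subtype.ext
    rw [Submonoid.coe_one, Ideal.one_eq_top]
    exact Ideal.absNorm_eq_one_iff.1 h3
  · intro c v hv
    rw [(hb2 c v hv).1, hI, inv_inv]
  · intro J
    apply hb3 (ClassGroup.mk0 J) J
    rw [hI, inv_inv]
  · intro c v m hv hm
    rw [Pool.Agent.H95.CN.pf_OB5 K (b c v) m hm]
    unfold nu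
    apply Finset.prod_congr rfl
    intro p hp
    exact ob4 K σ hfin (I c) (b c v) (α c) (β c) (Q c) v p (hOB c)
      (Nat.prime_of_mem_primeFactors hp) (hb1 c v hv)

end Pool.Agent.H95.CF
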