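import Pool.Agent.H5.CF.Targets

set_option autoImplicit false

namespace Pool.Agent.H95.CF

open Pool.Agent.H5.CF

variable {Λ M : Type} [AddCommMonoid M]

/-- walks of length `n` all of whose steps start in `W` -/
inductive WkS (St : Λ → Λ → Set M) (W : Set Λ) : ℕ → Λ → Λ → M → Prop
  | nil (ℓ : Λ) : WkS St W 0 ℓ ℓ 0
  | cons (n : ℕ) (ℓ ℓ' ℓ'' : Λ) (a m : M) : ℓ ∈ W → a ∈ St ℓ ℓ' → WkS St W n ℓ' ℓ'' m →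
      WkS St W (n + 1) ℓ ℓ'' (a + m)

lemma WkS.mono {St : Λ → Λ → Set M} {W W' : Set Λ} (hW : W ⊆ W') {n : ℕ} {ℓ ℓ' : Λ} {m : M}
    (h : WkS St W n ℓ ℓ' m) : WkS St W' n ℓ ℓ' m := by
  induction h with
  | nil ℓ => exact WkS.nil ℓ
  | cons n ℓ ℓ' ℓ'' a m h1 h2 _ ih => exact WkS.cons n ℓ ℓ' ℓ'' a m (hW h1) h2 ih

lemma Wk.exists_length {St : Λ → Λ → Set M} {ℓ ℓ' : Λ} {m : M} (h : Wk St ℓ ℓ' m) :
    ∃ n, WkS St Set.univ n ℓ ℓ' m := by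
  induction h with
  | nil ℓ => exact ⟨0, WkS.nil ℓ⟩
  | cons ℓ ℓ' ℓ'' a m h1 _ ih =>
    obtain ⟨n, hn⟩ := ih
    exact ⟨n + 1, WkS.cons n ℓ ℓ' ℓ'' a m (Set.mem_univ _) h1 hn⟩

lemma WkS.toWk {St : Λ → Λ → Set M} {W : Set Λ} {n : ℕ} {ℓ ℓ' : Λ} {m : M}
    (h : WkS St W n ℓ ℓ' m) : Wk St ℓ ℓ' m := by
  induction h with
  | nil ℓ => exact Wk.nil ℓ
  | cons n ℓ ℓ' ℓ'' a m _ h2 _ ih => exact Wk.cons ℓ ℓ' ℓ'' a m h2 ih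

lemma WkS.last {St : Λ → Λ → Set M} {W : Set Λ} (v : Λ) {n : ℕ} {ℓ ℓ' : Λ} {m : M}
    (h : WkS St W n ℓ ℓ' m) : WkS St (W \ {v}) n ℓ ℓ' m ∨
      ∃ (c : ℕ) (p : M) (ℓ₁ : Λ) (a m₁ : M) (k : ℕ), WkS St W c ℓ v p ∧ v ∈ W ∧ a ∈ St v ℓ₁ ∧
        WkS St (W \ {v}) k ℓ₁ ℓ' m₁ ∧ c + (k + 1) = n ∧ m = p + (a + m₁) := by
  induction h with
  | nil ℓ => exact Or.inl (WkS.nil ℓ)
  | cons n ℓ ℓ' ℓ'' a m h1 h2 h3 ih =>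
    rcases ih with ih | ⟨c, p, ℓ₁, a', m₁, k, h4, h5, h6, h7, h8, h9⟩
    · by_cases hv : ℓ = v
      · subst hv
        exact Or.inr ⟨0, 0, ℓ', a, m, n, WkS.nil ℓ, h1, h2, ih, by omega, by rw [zero_add]⟩
      · exact Or.inl (WkS.cons n ℓ ℓ' ℓ'' a m ⟨h1, hv⟩ h2 ih)
    · exact Or.inr ⟨c + 1, a + p, ℓ₁, a', m₁, k, WkS.cons _ _ _ _ _ _ h1 h2 h4, h5, h6, h7, by omega,
        by rw [h9, add_assoc]⟩

/-- The induction statement. -/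
def PW (St : Λ → Λ → Set M) (W : Set Λ) : Prop :=
  ∃ F : Λ → Λ → Set M, (∀ ℓ ℓ', (F ℓ ℓ').Finite) ∧
    (∀ ℓ ℓ', ∀ f ∈ F ℓ ℓ', Wk St ℓ ℓ' f) ∧
    ∀ (H : AddSubmonoid M) (N : ℕ),
      (∀ a < N, ∀ (ℓ : Λ) (p : M), WkS St Set.univ a ℓ ℓ p → p ∈ H) →
      ∀ n < N, ∀ (ℓ ℓ' : Λ) (m : M), WkS St W n ℓ ℓ' m →
        ∃ f ∈ F ℓ ℓ', ∃ p ∈ H, m = f + p

lemma PW_all [Finite Λ] (St : Λ → Λ → Set M) (hSt : ∀ ℓ ℓ', (St ℓ ℓ').Finite) :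
    ∀ (k : ℕ) (W : Set Λ), W.ncard = k → PW St W := by
  intro k
  induction k using Nat.strong_induction_on with
  | _ k IH =>
    intro W hk
    have h1 : ∀ ℓ : Λ, ∃ F : Λ → Λ → Set M, ℓ ∈ W → ((∀ ℓ ℓ', (F ℓ ℓ').Finite) ∧
      (∀ ℓ ℓ', ∀ f ∈ F ℓ ℓ', Wk St ℓ ℓ' f) ∧
      ∀ (H : AddSubmonoid M) (N : ℕ),
        (∀ a < N, ∀ (ℓ : Λ) (p : M), WkS St Set.univ a ℓ ℓ p → p ∈ H) →
        ∀ n < N, ∀ (ℓ₁ ℓ' : Λ) (m : M), WkS St (W \ {ℓ}) n ℓ₁ ℓ' m →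
          ∃ f ∈ F ℓ₁ ℓ', ∃ p ∈ H, m = f + p) := by
      intro ℓ
      by_cases hℓ : ℓ ∈ W
      · have hlt : (W \ {ℓ}).ncard < k := by
          rw [← hk]
          exact Set.ncard_sdiff_singleton_lt_of_mem hℓ (Set.toFinite _)
        obtain ⟨F, hF⟩ := IH _ hlt (W \ {ℓ}) rfl
        exact ⟨F, fun _ => hF⟩
      · exact ⟨fun _ _ => ∅, fun h => absurd h hℓ⟩
    choose G hG using h1
    refine ⟨fun ℓ ℓ' => {f | ℓ = ℓ' ∧ f = 0} ∪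
      ⋃ ℓ₁ : Λ, {f | ℓ ∈ W ∧ ∃ a ∈ St ℓ ℓ₁, ∃ g ∈ G ℓ ℓ₁ ℓ', f = a + g}, ?_, ?_, ?_⟩
    · intro ℓ ℓ'
      refine Set.Finite.union ?_ ?_
      · exact (Set.finite_singleton (0 : M)).subset (fun x hx => hx.2)
      · refine Set.finite_iUnion fun ℓ₁ => ?_
        by_cases hℓ : ℓ ∈ W
        · refine (Set.Finite.image2 (fun x y => x + y) (hSt ℓ ℓ₁) ((hG ℓ hℓ).1 ℓ₁ ℓ')).subset ?_
          rintro f ⟨_, f₁, h1, f₂, h2, rfl⟩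
          exact ⟨f₁, h1, f₂, h2, rfl⟩
        · refine Set.finite_empty.subset ?_
          rintro f ⟨h, _⟩
          exact absurd h hℓ
    · intro ℓ ℓ' f hf
      rcases hf with ⟨rfl, rfl⟩ | hf
      · exact Wk.nil _
      · rw [Set.mem_iUnion] at hf
        obtain ⟨ℓ₁, hℓ, a, ha, g, hg, rfl⟩ := hf
        exact Wk.cons _ _ _ _ _ ha ((hG ℓ hℓ).2.1 _ _ _ hg)
    · intro H N hH n hn ℓ ℓ' m h
      rcases WkS.last ℓ h with h | ⟨c, p, ℓ₁, a, m₁, k', h4, h5, h6, h7, h8, rfl⟩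
      · cases h with
        | nil _ => exact ⟨0, Or.inl ⟨rfl, rfl⟩, 0, H.zero_mem, by simp⟩
        | cons _ _ _ _ _ _ h1 _ _ => exact absurd rfl h1.2
      · have hp : p ∈ H := hH c (by omega) ℓ p (h4.mono (Set.subset_univ _))
        obtain ⟨f, hf, q, hq, rfl⟩ := (hG ℓ h5).2.2 H N hH k' (by omega) ℓ₁ ℓ' m₁ h7
        refine ⟨a + f, Or.inr ?_, p + q, H.add_mem hp hq, ?_⟩
        · rw [Set.mem_iUnion]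
          exact ⟨ℓ₁, h5, a, h6, f, hf, rfl⟩
        · abel

/-- **T3b.** -/
theorem T3b_holds : TargetT3b := by
  intro Λ M _ _ St hSt
  obtain ⟨F, hF1, hF2, hF3⟩ := PW_all St hSt _ Set.univ rfl
  set Γ : Set M := ⋃ ℓ : Λ, ⋃ ℓ₁ : Λ, {f | ∃ a ∈ St ℓ ℓ₁, ∃ g ∈ F ℓ₁ ℓ, f = a + g} with hΓ
  have hmem : ∀ ℓ ℓ₁ a g, a ∈ St ℓ ℓ₁ → g ∈ F ℓ₁ ℓ → a + g ∈ Γ := by
    intro ℓ ℓ₁ a g ha hg
    rw [hΓ]
    simp only [Set.mem_iUnion]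
    exact ⟨ℓ, ℓ₁, a, ha, g, hg, rfl⟩
  have hclosed : ∀ N : ℕ, ∀ (ℓ : Λ) (p : M), WkS St Set.univ N ℓ ℓ p →
      p ∈ AddSubmonoid.closure Γ := by
    intro N
    induction N using Nat.strong_induction_on with
    | _ N IH =>
      intro ℓ p h
      cases h with
      | nil _ => exact AddSubmonoid.zero_mem _
      | cons n _ ℓ' _ a m h1 h2 h3 =>
        obtain ⟨f, hf, q, hq, rfl⟩ := hF3 (AddSubmonoid.closure Γ) (n + 1) IH n (by omega) ℓ' ℓ m h3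
        rw [← add_assoc]
        exact AddSubmonoid.add_mem _ (AddSubmonoid.subset_closure (hmem _ _ _ _ h2 hf)) hq
  refine ⟨Γ, ?_, ?_, ?_, ?_⟩
  · rw [hΓ]
    refine Set.finite_iUnion fun ℓ => Set.finite_iUnion fun ℓ₁ => ?_
    refine (Set.Finite.image2 (fun x y => x + y) (hSt ℓ ℓ₁) (hF1 ℓ₁ ℓ)).subset ?_
    rintro f ⟨f₁, h1, f₂, h2, rfl⟩
    exact ⟨f₁, h1, f₂, h2, rfl⟩
  · intro p hp
    rw [hΓ] at hp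
    simp only [Set.mem_iUnion] at hp
    obtain ⟨ℓ, ℓ₁, a, ha, g, hg, rfl⟩ := hp
    exact ⟨ℓ, Wk.cons _ _ _ _ _ ha (hF2 _ _ _ hg)⟩
  · intro ℓ p h
    obtain ⟨n, hn⟩ := Wk.exists_length h
    exact hclosed n ℓ p hn
  · intro ℓ ℓ'
    refine ⟨F ℓ ℓ', hF1 ℓ ℓ', hF2 ℓ ℓ', ?_⟩
    intro m h
    obtain ⟨n, hn⟩ := Wk.exists_length h
    exact hF3 _ (n + 1) (fun a _ => hclosed a) n (by omega) ℓ ℓ' m hn

end Pool.Agent.H95.CF
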