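import Pool.Agent.H95.CF.T3a
import Pool.Agent.H95.CF.T3b

set_option autoImplicit false

namespace Pool.Agent.H95.CF

open Pool.Agent.H5.CF

variable {K : ℕ} {S : Sys K}

/-- the digraph of steps of contexts -/
def StC (S : Sys K) (U : Set S.Λ) (F : S.Λ → Set (Fin K → ℕ)) (ℓ ℓ' : S.Λ) : Set (Fin K → ℕ) :=
  {f | ℓ ∈ U ∧ ℓ' ∈ U ∧ ∃ ℓ₂, ℓ₂ ∈ U ∧ (S.R ℓ ℓ' ℓ₂ ∨ S.R ℓ ℓ₂ ℓ') ∧ f ∈ F ℓ₂}

lemma walk_real {U : Set S.Λ} {F : S.Λ → Set (Fin K → ℕ)}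
    (hF : ∀ ℓ, ∀ f ∈ F ℓ, ∃ (n : ℕ) (X : Set S.Λ), X ⊆ U ∧ TL S n X ℓ f)
    {ℓ ℓ' : S.Λ} {m : Fin K → ℕ} (h : Wk (StC S U F) ℓ ℓ' m) (hℓ : ℓ ∈ U) :
    ∃ (a : ℕ) (Y : Set S.Λ), Y ⊆ U ∧ CL S a Y ℓ ℓ' m := by
  induction h with
  | nil ℓ => exact ⟨0, {ℓ}, Set.singleton_subset_iff.2 hℓ, CL.hole ℓ⟩
  | cons ℓ ℓ₁ ℓ₃ f m h1 h2 ih =>
    obtain ⟨_, hℓ₁, ℓ₂, hℓ₂, hR, hf⟩ := h1
    obtain ⟨a, Y, hY, hc⟩ := ih hℓ₁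
    obtain ⟨n, X, hX, ht⟩ := hF ℓ₂ f hf
    rcases hR with hR | hR
    · refine ⟨_, _, ?_, (add_comm m f) ▸ CL.left _ _ _ _ _ _ _ _ _ _ hR hc ht⟩
      rintro x (rfl | hx | hx)
      · exact hℓ
      · exact hY hx
      · exact hX hx
    · refine ⟨_, _, ?_, CL.right _ _ _ _ _ _ _ _ _ _ hR ht hc⟩
      rintro x (rfl | hx | hx)
      · exact hℓ
      · exact hX hx
      · exact hY hx

lemma ctx_walk {U : Set S.Λ} {F : S.Λ → Set (Fin K → ℕ)} {H : AddSubmonoid (Fin K → ℕ)} {N : ℕ}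
    (hF : ∀ n ≤ N, ∀ (ℓ : S.Λ) (X : Set S.Λ) (m : Fin K → ℕ), X ⊆ U → TL S n X ℓ m →
          ∃ f ∈ F ℓ, ∃ p ∈ H, m = f + p)
    {n : ℕ} {Y : Set S.Λ} {ℓ ℓ' : S.Λ} {m : Fin K → ℕ} (h : CL S n Y ℓ ℓ' m) (hY : Y ⊆ U)
    (hn : n ≤ N) : ∃ w q, Wk (StC S U F) ℓ ℓ' w ∧ q ∈ H ∧ m = w + q := by
  induction h with
  | hole ℓ => exact ⟨0, 0, Wk.nil ℓ, H.zero_mem, by simp⟩
  | left ℓ ℓ₁ ℓ₂ ℓ' a b X Y m₁ m₂ hR hc ht ih =>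
    obtain ⟨w, q, hw, hq, rfl⟩ := ih (fun x hx => hY (Set.mem_insert_of_mem _ (Or.inl hx))) (by omega)
    obtain ⟨f, hf, p, hp, rfl⟩ := hF b (by omega) ℓ₂ Y m₂
      (fun x hx => hY (Set.mem_insert_of_mem _ (Or.inr hx))) ht
    refine ⟨f + w, q + p, Wk.cons ℓ ℓ₁ ℓ' f w ⟨hY (Set.mem_insert _ _),
      hY (Set.mem_insert_of_mem _ (Or.inl (CL.root_mem hc).1)), ℓ₂,
      hY (Set.mem_insert_of_mem _ (Or.inr (TL.root_mem ht).1)), Or.inl hR, hf⟩ hw,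
      H.add_mem hq hp, by abel⟩
  | right ℓ ℓ₁ ℓ₂ ℓ' a b X Y m₁ m₂ hR ht hc ih =>
    obtain ⟨w, q, hw, hq, rfl⟩ := ih (fun x hx => hY (Set.mem_insert_of_mem _ (Or.inr hx))) (by omega)
    obtain ⟨f, hf, p, hp, rfl⟩ := hF a (by omega) ℓ₁ X m₁
      (fun x hx => hY (Set.mem_insert_of_mem _ (Or.inl hx))) ht
    refine ⟨f + w, q + p, Wk.cons ℓ ℓ₂ ℓ' f w ⟨hY (Set.mem_insert _ _),
      hY (Set.mem_insert_of_mem _ (Or.inr (CL.root_mem hc).1)), ℓ₁,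
      hY (Set.mem_insert_of_mem _ (Or.inl (TL.root_mem ht).1)), Or.inr hR, hf⟩ hw,
      H.add_mem hq hp, by abel⟩

/-- **T3c.** -/
theorem T3c_holds : TargetT3c := by
  intro K S U
  have := S.fin
  obtain ⟨F, hF1, hF2, hF3⟩ := T3a_holds K S U
  have hSt : ∀ ℓ ℓ', (StC S U F ℓ ℓ').Finite := by
    intro ℓ ℓ'
    refine (Set.finite_iUnion (fun ℓ₂ : S.Λ => hF1 ℓ₂)).subset ?_
    rintro f ⟨_, _, ℓ₂, _, _, hf⟩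
    exact Set.mem_iUnion.2 ⟨ℓ₂, hf⟩
  obtain ⟨Γ₀, hΓ1, hΓ2, hΓ3, hΓ4⟩ := T3b_holds S.Λ (Fin K → ℕ) (StC S U F) hSt
  set Γ : Set (Fin K → ℕ) := {p | p ∈ Γ₀ ∧ ∃ ℓ ∈ U, Wk (StC S U F) ℓ ℓ p} with hΓ
  have hcl : AddSubmonoid.closure Γ₀ ≤ AddSubmonoid.closure Γ := by
    rw [AddSubmonoid.closure_le]
    intro p hp
    obtain ⟨ℓ, hℓ⟩ := hΓ2 p hp
    by_cases hU : ℓ ∈ U
    · exact AddSubmonoid.subset_closure ⟨hp, ℓ, hU, hℓ⟩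
    · cases hℓ with
      | nil _ => exact AddSubmonoid.zero_mem _
      | cons _ _ _ _ _ h1 _ => exact absurd h1.1 hU
  have hpump : ∀ N : ℕ, ∀ (ℓ : S.Λ) (Y : Set S.Λ) (p : Fin K → ℕ), Y ⊆ U → CL S N Y ℓ ℓ p →
      p ∈ AddSubmonoid.closure Γ := by
    intro N
    induction N using Nat.strong_induction_on with
    | _ N IH =>
      intro ℓ Y p hY hc
      obtain ⟨w, q, hw, hq, rfl⟩ := ctx_walk (hF3 (AddSubmonoid.closure Γ) N IH) hc hY le_rfl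
      exact AddSubmonoid.add_mem _ (hcl (hΓ3 _ _ hw)) hq
  refine ⟨Γ, hΓ1.subset (fun p hp => hp.1), ?_, ?_, ?_, ?_⟩
  · rintro p ⟨_, ℓ, hℓ, hw⟩
    obtain ⟨a, Y, hY, hc⟩ := walk_real hF2 hw hℓ
    exact ⟨ℓ, hℓ, a, Y, hY, hc⟩
  · intro ℓ a Y p hY hc
    exact hpump a ℓ Y p hY hc
  · intro ℓ
    refine ⟨F ℓ, hF1 ℓ, hF2 ℓ, ?_⟩
    intro n X m hX ht
    exact hF3 (AddSubmonoid.closure Γ) n (fun a _ => hpump a) n le_rfl ℓ X m hX ht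
  · intro ℓ ℓ'
    by_cases hU : ℓ ∈ U
    · obtain ⟨F', hF'1, hF'2, hF'3⟩ := hΓ4 ℓ ℓ'
      refine ⟨F', hF'1, ?_, ?_⟩
      · intro f hf
        exact walk_real hF2 (hF'2 f hf) hU
      · intro n X m hX hc
        obtain ⟨w, q, hw, hq, rfl⟩ := ctx_walk
          (hF3 (AddSubmonoid.closure Γ) n (fun a _ => hpump a)) hc hX le_rfl
        obtain ⟨f, hf, p, hp, rfl⟩ := hF'3 w hw
        exact ⟨f, hf, p + q, AddSubmonoid.add_mem _ (hcl hp) hq, by abel⟩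
    · refine ⟨∅, Set.finite_empty, fun f hf => absurd hf (Set.notMem_empty _), ?_⟩
      intro n X m hX hc
      exact absurd (hX (CL.root_mem hc).1) hU

end Pool.Agent.H95.CF
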