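import Pool.Agent.H95.CF.T1

set_option autoImplicit false

namespace Pool.Agent.H95.CF

open Pool.Agent.H5.CF

variable {K : ℕ} {S : Sys K}

lemma TL.minimal (X : Set S.Λ) {n : ℕ} {Y : Set S.Λ} {ℓ : S.Λ} {m : Fin K → ℕ}
    (h : TL S n Y ℓ m) (hX : X ⊆ Y) :
    ∃ (a : ℕ) (Z : Set S.Λ) (v : S.Λ) (p m' : Fin K → ℕ), CL S a Z ℓ v p ∧ Z ⊆ Y ∧ m = p + m' ∧
      ((∃ (n' : ℕ) (Y' : Set S.Λ), TL S n' Y' v m' ∧ Y' ⊆ Y ∧ X ⊆ {v}) ∨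
      (∃ (ℓ₁ ℓ₂ : S.Λ) (b c : ℕ) (X₁ X₂ : Set S.Λ) (m₁ m₂ : Fin K → ℕ), S.R v ℓ₁ ℓ₂ ∧
        TL S b X₁ ℓ₁ m₁ ∧ TL S c X₂ ℓ₂ m₂ ∧ m' = m₁ + m₂ ∧ X₁ ⊆ Y ∧ X₂ ⊆ Y ∧ ¬ X ⊆ X₁ ∧ ¬ X ⊆ X₂ ∧
        X ⊆ insert v (X₁ ∪ X₂))) := by
  induction h with
  | leaf ℓ hl =>
    exact ⟨0, {ℓ}, ℓ, 0, S.wt ℓ, CL.hole ℓ, le_rfl, by simp, Or.inl ⟨1, {ℓ}, TL.leaf ℓ hl, le_rfl, hX⟩⟩
  | node ℓ ℓ₁ ℓ₂ a b Y₁ Y₂ m₁ m₂ hR h1 h2 ih1 ih2 =>
    have e1 : Y₁ ⊆ insert ℓ (Y₁ ∪ Y₂) := fun x hx => Set.mem_insert_of_mem _ (Or.inl hx)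
    have e2 : Y₂ ⊆ insert ℓ (Y₁ ∪ Y₂) := fun x hx => Set.mem_insert_of_mem _ (Or.inr hx)
    by_cases hX1 : X ⊆ Y₁
    · obtain ⟨a', Z, v, p, m', hc, hZ, rfl, hs⟩ := ih1 hX1
      refine ⟨_, _, v, p + m₂, m', CL.left _ _ _ _ _ _ _ _ _ _ hR hc h2, ?_, by abel, ?_⟩
      · rintro x (rfl | hx | hx)
        · exact Set.mem_insert _ _
        · exact e1 (hZ hx)
        · exact e2 hx
      · rcases hs with ⟨n', Y', t, hY', hv⟩ | ⟨l1, l2, b', c', X1, X2, m1, m2, r, t1, t2, e, q1, q2, q3⟩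
        · exact Or.inl ⟨n', Y', t, hY'.trans e1, hv⟩
        · exact Or.inr ⟨l1, l2, b', c', X1, X2, m1, m2, r, t1, t2, e, q1.trans e1, q2.trans e1, q3⟩
    · by_cases hX2 : X ⊆ Y₂
      · obtain ⟨a', Z, v, p, m', hc, hZ, rfl, hs⟩ := ih2 hX2
        refine ⟨_, _, v, m₁ + p, m', CL.right _ _ _ _ _ _ _ _ _ _ hR h1 hc, ?_, by abel, ?_⟩
        · rintro x (rfl | hx | hx)
          · exact Set.mem_insert _ _
          · exact e1 hx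
          · exact e2 (hZ hx)
        · rcases hs with ⟨n', Y', t, hY', hv⟩ | ⟨l1, l2, b', c', X1, X2, m1, m2, r, t1, t2, e, q1, q2, q3⟩
          · exact Or.inl ⟨n', Y', t, hY'.trans e2, hv⟩
          · exact Or.inr ⟨l1, l2, b', c', X1, X2, m1, m2, r, t1, t2, e, q1.trans e2, q2.trans e2, q3⟩
      · exact ⟨0, {ℓ}, ℓ, 0, m₁ + m₂, CL.hole ℓ, Set.singleton_subset_iff.2 (Set.mem_insert _ _),
          by simp, Or.inr ⟨ℓ₁, ℓ₂, a, b, Y₁, Y₂, m₁, m₂, hR, h1, h2, rfl, e1, e2, hX1, hX2, hX⟩⟩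

/-- properties of the set of base trees -/
def PB4 (S : Sys K) (U : Set S.Λ) (Γ : Set (Fin K → ℕ)) (X : Set S.Λ) (ℓ : S.Λ)
    (B : Set (Fin K → ℕ)) : Prop :=
  B.Finite ∧
    (∀ b ∈ B, ∃ (n : ℕ) (Y : Set S.Λ), X ⊆ Y ∧ Y ⊆ U ∧ TL S n Y ℓ b) ∧
    ∀ (n : ℕ) (Y : Set S.Λ) (m : Fin K → ℕ), X ⊆ Y → Y ⊆ U → TL S n Y ℓ m →
      ∃ b ∈ B, ∃ p ∈ AddSubmonoid.closure Γ, m = b + p

/-- **T4.** -/
theorem T4_holds : TargetT4 := by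
  intro K S U Γ hRed
  have := S.fin
  obtain ⟨-, -, -, hT, hC⟩ := hRed
  choose FT hFT1 hFT2 hFT3 using hT
  choose FC hFC1 hFC2 hFC3 using hC
  have main : ∀ (k : ℕ) (X : Set S.Λ), X ⊆ U → X.ncard = k → ∀ ℓ, ∃ B, PB4 S U Γ X ℓ B := by
    intro k
    induction k using Nat.strong_induction_on with
    | _ k IH =>
      intro X hXU hk ℓ
      have h1 : ∀ (X' : Set S.Λ) (ℓ' : S.Λ), ∃ B : Set (Fin K → ℕ), X' ⊂ X → PB4 S U Γ X' ℓ' B := by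
        intro X' ℓ'
        by_cases hX' : X' ⊂ X
        · obtain ⟨B, hB⟩ := IH X'.ncard (by rw [← hk]; exact Set.ncard_lt_ncard hX' (Set.toFinite _))
            X' (hX'.1.trans hXU) rfl ℓ'
          exact ⟨B, fun _ => hB⟩
        · exact ⟨∅, fun h => absurd h hX'⟩
      choose G hG using h1
      refine ⟨(⋃ v : S.Λ, {b | X ⊆ {v} ∧ ∃ f ∈ FC ℓ v, ∃ g ∈ FT v, b = f + g}) ∪
        ⋃ v : S.Λ, ⋃ ℓ₁ : S.Λ, ⋃ ℓ₂ : S.Λ, ⋃ X₁ : Set S.Λ, ⋃ X₂ : Set S.Λ,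
          {b | (S.R v ℓ₁ ℓ₂ ∧ X₁ ⊂ X ∧ X₂ ⊂ X ∧ X ⊆ insert v (X₁ ∪ X₂)) ∧
            ∃ f ∈ FC ℓ v, ∃ g ∈ {x | ∃ b₁ ∈ G X₁ ℓ₁, ∃ b₂ ∈ G X₂ ℓ₂, x = b₁ + b₂}, b = f + g},
        ?_, ?_, ?_⟩
      · refine Set.Finite.union ?_ ?_
        · refine Set.finite_iUnion fun v => ?_
          refine (Set.Finite.image2 (fun x y => x + y) (hFC1 ℓ v) (hFT1 v)).subset ?_
          rintro f ⟨_, f₁, h1, f₂, h2, rfl⟩
          exact ⟨f₁, h1, f₂, h2, rfl⟩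
        · refine Set.finite_iUnion fun v => Set.finite_iUnion fun ℓ₁ => Set.finite_iUnion fun ℓ₂ =>
            Set.finite_iUnion fun X₁ => Set.finite_iUnion fun X₂ => ?_
          by_cases hc : X₁ ⊂ X ∧ X₂ ⊂ X
          · refine (Set.Finite.image2 (fun x y => x + y) (hFC1 ℓ v)
              (Set.Finite.image2 (fun x y => x + y) (hG X₁ ℓ₁ hc.1).1 (hG X₂ ℓ₂ hc.2).1)).subset ?_
            rintro f ⟨_, f₁, h1, f₂, ⟨b₁, hb₁, b₂, hb₂, rfl⟩, rfl⟩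
            exact ⟨f₁, h1, _, ⟨b₁, hb₁, b₂, hb₂, rfl⟩, rfl⟩
          · refine Set.finite_empty.subset ?_
            rintro f ⟨⟨_, h1, h2, _⟩, _⟩
            exact absurd ⟨h1, h2⟩ hc
      · rintro b (hb | hb)
        · simp only [Set.mem_iUnion] at hb
          obtain ⟨v, hv, f, hf, g, hg, rfl⟩ := hb
          obtain ⟨n, Y, hY, hc⟩ := hFC2 ℓ v f hf
          obtain ⟨n', Y', hY', ht⟩ := hFT2 v g hg
          refine ⟨_, _, ?_, Set.union_subset hY hY', CL.plug hc ht⟩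
          intro x hx
          have := hv hx
          rw [Set.mem_singleton_iff] at this
          subst this
          exact Or.inr (TL.root_mem ht).1
        · simp only [Set.mem_iUnion] at hb
          obtain ⟨v, ℓ₁, ℓ₂, X₁, X₂, ⟨hR, hX1, hX2, hX⟩, f, hf, g, ⟨b₁, hb₁, b₂, hb₂, rfl⟩, rfl⟩ := hb
          obtain ⟨n, Y, hY, hc⟩ := hFC2 ℓ v f hf
          obtain ⟨n₁, Y₁, e1, e2, t₁⟩ := (hG X₁ ℓ₁ hX1).2.1 b₁ hb₁
          obtain ⟨n₂, Y₂, e3, e4, t₂⟩ := (hG X₂ ℓ₂ hX2).2.1 b₂ hb₂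
          have hv : v ∈ U := hY (CL.root_mem hc).2
          refine ⟨_, _, ?_, ?_, CL.plug hc (TL.node _ _ _ _ _ _ _ _ _ hR t₁ t₂)⟩
          · intro x hx
            rcases hX hx with rfl | hx | hx
            · exact Or.inr (Set.mem_insert _ _)
            · exact Or.inr (Set.mem_insert_of_mem _ (Or.inl (e1 hx)))
            · exact Or.inr (Set.mem_insert_of_mem _ (Or.inr (e3 hx)))
          · rintro x (hx | rfl | hx | hx)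
            · exact hY hx
            · exact hv
            · exact e2 hx
            · exact e4 hx
      · intro n Y m hXY hYU ht
        obtain ⟨a, Z, v, p, m', hc, hZ, rfl, hs⟩ := TL.minimal X ht hXY
        obtain ⟨f, hf, q, hq, rfl⟩ := hFC3 ℓ v a Z p (hZ.trans hYU) hc
        rcases hs with ⟨n', Y', t, hY', hv⟩ |
          ⟨ℓ₁, ℓ₂, b, c, X₁, X₂, m₁, m₂, hR, t₁, t₂, rfl, hX₁, hX₂, hn1, hn2, hX⟩
        · obtain ⟨g, hg, r, hr, rfl⟩ := hFT3 v n' Y' m' (hY'.trans hYU) t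
          refine ⟨f + g, Or.inl ?_, q + r, AddSubmonoid.add_mem _ hq hr, by abel⟩
          simp only [Set.mem_iUnion]
          exact ⟨v, hv, f, hf, g, hg, rfl⟩
        · have s1 : X ∩ X₁ ⊂ X := ⟨Set.inter_subset_left, fun h => hn1 (fun x hx => (h hx).2)⟩
          have s2 : X ∩ X₂ ⊂ X := ⟨Set.inter_subset_left, fun h => hn2 (fun x hx => (h hx).2)⟩
          obtain ⟨b₁, hb₁, r₁, hr₁, rfl⟩ := (hG _ ℓ₁ s1).2.2 b X₁ m₁ Set.inter_subset_right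
            (hX₁.trans hYU) t₁
          obtain ⟨b₂, hb₂, r₂, hr₂, rfl⟩ := (hG _ ℓ₂ s2).2.2 c X₂ m₂ Set.inter_subset_right
            (hX₂.trans hYU) t₂
          refine ⟨f + (b₁ + b₂), Or.inr ?_, q + (r₁ + r₂),
            AddSubmonoid.add_mem _ hq (AddSubmonoid.add_mem _ hr₁ hr₂), by abel⟩
          simp only [Set.mem_iUnion]
          refine ⟨v, ℓ₁, ℓ₂, X ∩ X₁, X ∩ X₂, ⟨hR, s1, s2, ?_⟩, f, hf, b₁ + b₂,
            ⟨b₁, hb₁, b₂, hb₂, rfl⟩, rfl⟩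
          intro x hx
          rcases hX hx with rfl | h | h
          · exact Set.mem_insert _ _
          · exact Set.mem_insert_of_mem _ (Or.inl ⟨hx, h⟩)
          · exact Set.mem_insert_of_mem _ (Or.inr ⟨hx, h⟩)
  intro X ℓ hXU
  exact main _ X hXU rfl ℓ

end Pool.Agent.H95.CF
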