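import Pool.Agent.H95.CF.T2old
import Pool.Agent.H95.CF.T3c
import Pool.Agent.H95.CF.T4

set_option autoImplicit false

namespace Pool.Agent.H95.CF

open Pool.Agent.H5.CF

variable {K : ℕ} {S : Sys K}

lemma toSet_iff (b : Fin K → ℕ) (Γ : Finset (Fin K → ℕ)) (n : Fin K → ℕ) :
    n ∈ (LinSet.mk b Γ).toSet ↔
      ∃ p ∈ AddSubmonoid.closure (Γ : Set (Fin K → ℕ)), n = b + p := by
  constructor
  · rintro ⟨c, hc⟩
    exact ⟨_, sum_mem (fun e he => nsmul_mem (AddSubmonoid.subset_closure he) _), hc⟩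
  · rintro ⟨p, hp, rfl⟩
    rw [AddSubmonoid.mem_closure_finset] at hp
    obtain ⟨c, _, hc⟩ := hp
    exact ⟨c, by rw [← hc]⟩

lemma pump_closure {U : Set S.Λ} {ℓ₀ : S.Λ} {Γ : Set (Fin K → ℕ)}
    (hΓ : ∀ p ∈ Γ, ∃ ℓ ∈ U, ∃ (a : ℕ) (Y : Set S.Λ), Y ⊆ U ∧ CL S a Y ℓ ℓ p)
    {p : Fin K → ℕ} (hp : p ∈ AddSubmonoid.closure Γ) :
    ∀ (k : ℕ) (b : Fin K → ℕ), TL S k U ℓ₀ b → ∃ k', TL S k' U ℓ₀ (b + p) := by
  induction hp using AddSubmonoid.closure_induction with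
  | mem x hx =>
    intro k b ht
    obtain ⟨ℓ, hℓ, a, Y, hY, hc⟩ := hΓ x hx
    have := TL.pump ht hℓ hc
    rw [Set.union_eq_left.2 hY] at this
    exact ⟨_, this⟩
  | zero =>
    intro k b ht
    exact ⟨k, by rw [add_zero]; exact ht⟩
  | add x y _ _ hx hy =>
    intro k b ht
    obtain ⟨k', h'⟩ := hx k b ht
    obtain ⟨k'', h''⟩ := hy k' _ h'
    exact ⟨k'', by rw [← add_assoc]; exact h''⟩

/-- **M1.** -/
theorem M1_holds : TargetM1 := by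
  intro K S ℓ₀
  have := S.fin
  choose Γ hΓ using T3c_holds K S
  have hB := fun U : Set S.Λ => T4_holds K S U (Γ U) (hΓ U) U ℓ₀ le_rfl
  choose B hB1 hB2 hB3 using hB
  have hfin : ∀ U, (Γ U).Finite := fun U => (hΓ U).1
  refine ⟨⋃ U : Set S.Λ, {X | (∃ n m, TL S n U ℓ₀ m) ∧ ∃ b ∈ B U, X = ⟨b, (hfin U).toFinset⟩},
    ?_, ?_, ?_⟩
  · refine Set.finite_iUnion fun U => ?_
    refine ((hB1 U).image (fun b => (⟨b, (hfin U).toFinset⟩ : LinSet K))).subset ?_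
    rintro X ⟨_, b, hb, rfl⟩
    exact ⟨b, hb, rfl⟩
  · intro X hX
    rw [Set.mem_iUnion] at hX
    obtain ⟨U, ⟨n, m, ht⟩, b, hb, rfl⟩ := hX
    simp only [Set.Finite.coe_toFinset]
    exact strat_pumps ht (hΓ U).2.1
  · intro n
    rw [tr_iff]
    constructor
    · rintro ⟨k, U, ht⟩
      obtain ⟨b, hb, p, hp, rfl⟩ := hB3 U k U n le_rfl le_rfl ht
      refine ⟨⟨b, (hfin U).toFinset⟩, ?_, ?_⟩
      · rw [Set.mem_iUnion]
        exact ⟨U, ⟨k, _, ht⟩, b, hb, rfl⟩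
      · rw [toSet_iff]
        refine ⟨p, ?_, rfl⟩
        rw [Set.Finite.coe_toFinset]
        exact hp
    · rintro ⟨X, hX, hn⟩
      rw [Set.mem_iUnion] at hX
      obtain ⟨U, _, b, hb, rfl⟩ := hX
      rw [toSet_iff] at hn
      obtain ⟨p, hp, rfl⟩ := hn
      rw [Set.Finite.coe_toFinset] at hp
      obtain ⟨k, Y, hY1, hY2, ht⟩ := hB2 U b hb
      have hYU : Y = U := subset_antisymm hY2 hY1
      subst hYU
      obtain ⟨k', hk'⟩ := pump_closure (hΓ Y).2.1 hp k b ht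
      exact ⟨k', Y, hk'⟩

end Pool.Agent.H95.CF
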