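import Pool.Agent.H31.CN.T5

/-!
# Ring class groups: definitions for the algebraic part of the complete family
-/

set_option autoImplicit false

open NumberField
open scoped nonZeroDivisors

namespace Pool.Agent.H95.CF

open Pool.Agent.H31.CN

section

variable (K : Type) [Field K] [NumberField K] (f : ℕ)

/-- the ideal `I` is non-zero and prime to `f` -/
def Pr (I : Ideal (𝓞 K)) : Prop := I ≠ ⊥ ∧ I ⊔ Ideal.span {(f : 𝓞 K)} = ⊤

/-- the number `a` is prime to `f` and congruent to an integer modulo `m` -/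
def Rat (m : ℕ) (a : 𝓞 K) : Prop :=
  Pr K f (Ideal.span {a}) ∧ ∃ n : ℤ, a - (n : 𝓞 K) ∈ Ideal.span {(m : 𝓞 K)}

/-- `G` is the group of the ideals prime to `f` modulo the principal ideals with a generator
which is congruent to an integer modulo `f`; `cl I` is the class of `I` -/
structure RG (G : Type) [CommGroup G] (cl : Ideal (𝓞 K) → G) : Prop where
  mul : ∀ I J, Pr K f I → Pr K f J → cl (I * J) = cl I * cl J
  sur : ∀ g, ∃ I, Pr K f I ∧ cl I = g
  eqv : ∀ I J, Pr K f I → Pr K f J → (cl I = cl J ↔ ∃ a b : 𝓞 K, Rat K f f a ∧ Rat K f f b ∧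
    Ideal.span {a} * I = Ideal.span {b} * J)

variable {G : Type} [CommGroup G] (cl : Ideal (𝓞 K) → G)

/-- the classes of the numbers which are congruent to integers modulo `f / d` -/
def Hd (d : ℕ) : Set G := {g | ∃ a : 𝓞 K, Rat K f (f / d) a ∧ cl (Ideal.span {a}) = g}

/-- primitive characters -/
def Prim (φ : G →* ℂˣ) : Prop := ∀ p : ℕ, p.Prime → p ∣ f → ∃ g ∈ Hd K f cl p, φ g ≠ 1

open Classical in
/-- `F` is the `L`-function of `φ`, holomorphic away from `1` -/
def IsLg (φ : G →* ℂˣ) (F : ℂ → ℂ) : Prop :=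
  DifferentiableOn ℂ F {1}ᶜ ∧ ∀ s : ℂ, 1 < s.re →
    HasSum (fun I : (Ideal (𝓞 K))⁰ => (if Pr K f I then ((φ (cl I) : ℂˣ) : ℂ) else 0) *
      (Ideal.absNorm (I : Ideal (𝓞 K)) : ℂ) ^ (-s)) (F s)

/-- the `L`-function does not vanish at `1/2` -/
def NVg (φ : G →* ℂˣ) : Prop := ∃ F : ℂ → ℂ, IsLg K f cl φ F ∧ F (1 / 2) ≠ 0

end

end Pool.Agent.H95.CF
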