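import Pool.Agent.H95.CF.Targets
import Pool.Agent.H26.CN.EPS

/-!
# (EPR) the Epstein zeta function with its polar part
-/

set_option autoImplicit false

open MeasureTheory Set Filter Asymptotics
open scoped Real Topology

namespace Pool.Agent.H95.CF

open Pool.Agent.H31.CN Pool.Agent.H26.CN.EPS

theorem pf_EPR (hTHE : T_THE) (hZTH : T_ZTH) : T_EPR := by
  intro A B Δ hA hD
  have hs : 0 < Real.sqrt Δ := Real.sqrt_pos.2 hD
  have hqd : ∀ v, 0 ≤ qd A B Δ v := by
    obtain ⟨c, hc, h⟩ := qd_lower A B Δ hA hD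
    intro v
    exact le_trans (by positivity) (h v)
  have hqd' : ∀ v, v ≠ 0 → 0 < qd A B Δ v := by
    obtain ⟨c, hc, h⟩ := qd_lower A B Δ hA hD
    intro v hv
    have := norm_ge_one hv
    exact lt_of_lt_of_le (by positivity) (h v)
  have hQ : ∀ v, 0 ≤ eq' A B Δ v := by
    intro v
    unfold eq'
    have := hqd v
    positivity
  have hQ' : ∀ v, v ≠ 0 → 0 < eq' A B Δ v := by
    intro v hv
    unfold eq'
    have := hqd' v hv
    positivity
  obtain ⟨-, hI, hz⟩ := hZTH A B Δ hA hD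
  set P := FEP hTHE A B Δ hA hD hQ with hP
  set b : ℝ := 2 * π / Real.sqrt Δ with hb
  have hb0 : 0 < b := by positivity
  refine ⟨fun s => 1 / 2 * (b : ℂ) ^ s * (P.Λ₀ s * (Complex.Gamma s)⁻¹ -
    (Complex.Gamma (s + 1))⁻¹ - (Complex.Gamma s)⁻¹ / (1 - s)),
    fun s => 1 / 2 * (b : ℂ) ^ s * (P.Λ₀ s * (Complex.Gamma s)⁻¹ -
    (Complex.Gamma (s + 1))⁻¹), ?_, ?_, ?_, ?_, ?_⟩
  · intro s hs1
    have hs1' : (1 : ℂ) - s ≠ 0 := by
      intro h
      exact hs1 (by simpa using (sub_eq_zero.1 h).symm)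
    have hbc : (b : ℂ) ≠ 0 := Complex.ofReal_ne_zero.2 hb0.ne'
    have h1 : DifferentiableAt ℂ (fun s : ℂ => (b : ℂ) ^ s) s :=
      differentiableAt_id.const_cpow (Or.inl hbc)
    have h2 : DifferentiableAt ℂ (fun s : ℂ => (Complex.Gamma s)⁻¹) s :=
      Complex.differentiable_one_div_Gamma s
    have h3 : DifferentiableAt ℂ (fun s : ℂ => (Complex.Gamma (s + 1))⁻¹) s := by
      have := (Complex.differentiable_one_div_Gamma (s + 1)).comp s
        ((differentiableAt_id (𝕜 := ℂ) (x := s)).add_const 1)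
      exact this
    have h4 : DifferentiableAt ℂ (fun s : ℂ => (Complex.Gamma s)⁻¹ / (1 - s)) s :=
      h2.div ((differentiableAt_const 1).sub differentiableAt_id) hs1'
    exact ((h1.const_mul (1 / 2)).mul ((((P.differentiable_Λ₀ s).mul h2).sub h3).sub
      h4)).differentiableWithinAt
  · have hbc : (b : ℂ) ≠ 0 := Complex.ofReal_ne_zero.2 hb0.ne'
    intro s
    have h1 : DifferentiableAt ℂ (fun s : ℂ => (b : ℂ) ^ s) s :=
      differentiableAt_id.const_cpow (Or.inl hbc)
    have h2 : DifferentiableAt ℂ (fun s : ℂ => (Complex.Gamma s)⁻¹) s :=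
      Complex.differentiable_one_div_Gamma s
    have h3 : DifferentiableAt ℂ (fun s : ℂ => (Complex.Gamma (s + 1))⁻¹) s := by
      have := (Complex.differentiable_one_div_Gamma (s + 1)).comp s
        ((differentiableAt_id (𝕜 := ℂ) (x := s)).add_const 1)
      exact this
    exact (h1.const_mul (1 / 2)).mul (((P.differentiable_Λ₀ s).mul h2).sub h3)
  · intro s hs1
    have hs1' : (1 : ℂ) - s ≠ 0 := by
      intro h
      exact hs1 (by simpa using (sub_eq_zero.1 h).symm)
    have hs1'' : s - 1 ≠ 0 := sub_ne_zero.2 hs1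
    unfold Rs
    rw [← hb]
    field_simp
    ring
  · intro s hs1
    have hk : P.k < s.re := hs1
    have hM := P.hasMellin hk
    have hG : Complex.Gamma s ≠ 0 := Complex.Gamma_ne_zero_of_re_pos (by linarith)
    have hs0 : s ≠ 0 := by
      intro h
      rw [h] at hs1
      simp at hs1
      linarith
    have hs1' : (1 : ℂ) - s ≠ 0 := by
      intro h
      have := sub_eq_zero.1 h
      rw [← this] at hs1
      simp at hs1
    have hsum := hasSum_mellin (a := fun v : ℤ × ℤ => if v = 0 then (0 : ℂ) else 1)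
      (p := eq' A B Δ) (F := fun t => P.f t - P.f₀) (s := s)
      (fun v => by
        by_cases hv : v = 0
        · left; simp [hv]
        · right; exact hQ' v hv) (by linarith)
      (fun t ht => by
        have h := (Complex.hasSum_ofReal.2 (Th_sub hTHE (B := B) hA hD ht))
        have e : P.f t - P.f₀ = ((Th A B Δ t - 1 : ℝ) : ℂ) := by
          rw [hP]
          change ((Th A B Δ t : ℝ) : ℂ) - 1 = _
          push_cast
          ring
        rw [e]
        refine h.congr_fun ?_ |> fun x => x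
        intro v
        by_cases hv : v = 0
        · simp [hv]
        · rw [if_neg hv, if_neg hv, one_mul])
      (by
        refine (summable_pow hA hD hs1 (B := B)).congr fun v => ?_
        by_cases hv : v = 0
        · simp [hv]
        · simp [hv])
    have hmel : mellin (fun t => P.f t - P.f₀) s = P.Λ s := hM.2
    rw [hmel] at hsum
    have h2 := hsum.mul_left ((b : ℂ) ^ s * (Complex.Gamma s)⁻¹)
    have e2 : (b : ℂ) ^ s * (Complex.Gamma s)⁻¹ * P.Λ s = 2 * (1 / 2 * (b : ℂ) ^ s *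
        (P.Λ₀ s * (Complex.Gamma s)⁻¹ - (Complex.Gamma (s + 1))⁻¹ -
          (Complex.Gamma s)⁻¹ / (1 - s))) := by
      have e3 : P.Λ s = P.Λ₀ s - (1 / s) • (1 : ℂ) - ((1 : ℂ) / (((1 : ℝ) : ℂ) - s)) • (1 : ℂ) :=
        rfl
      rw [e3, Complex.Gamma_add_one s hs0, smul_eq_mul, smul_eq_mul, Complex.ofReal_one]
      field_simp
    rw [e2] at h2
    refine h2.congr_fun ?_ |> fun x => x
    intro v
    by_cases hv : v = 0
    · simp [hv]
    · rw [if_neg hv, if_neg hv, mul_one]
      have e4 : ((eq' A B Δ v : ℝ) : ℂ) ^ s = (b : ℂ) ^ s * ((qd A B Δ v : ℝ) : ℂ) ^ s := by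
        unfold eq'
        rw [← hb, Complex.ofReal_mul, Complex.mul_cpow_ofReal_nonneg hb0.le (hqd v)]
      have hbs : (b : ℂ) ^ s ≠ 0 := by
        rw [Complex.cpow_def_of_ne_zero (Complex.ofReal_ne_zero.2 hb0.ne')]
        exact Complex.exp_ne_zero _
      have hqs : ((qd A B Δ v : ℝ) : ℂ) ^ s ≠ 0 := by
        rw [Complex.cpow_def_of_ne_zero (Complex.ofReal_ne_zero.2 (hqd' v hv).ne')]
        exact Complex.exp_ne_zero _
      rw [e4, Complex.cpow_neg]
      field_simp
  · have h1 := L0_half hTHE A B Δ hA hD hQ hI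
    simp only
    rw [← hP] at h1
    rw [h1, show (1 / 2 : ℂ) + 1 = 1 / 2 + 1 from rfl, Complex.Gamma_add_one _ (by norm_num),
      Complex.Gamma_one_half_eq, hz]
    have hb2 : (b : ℂ) ^ (1 / 2 : ℂ) = ((Real.sqrt 2 * Real.sqrt π * Δ ^ (-(1 / 4) : ℝ) : ℝ) : ℂ) := by
      have : ((1 / 2 : ℂ)) = (((1 / 2 : ℝ)) : ℂ) := by push_cast; ring
      rw [this, ← Complex.ofReal_cpow hb0.le]
      congr 1
      rw [hb, Real.div_rpow (by positivity) hs.le, ← Real.sqrt_eq_rpow, Real.sqrt_mul (by norm_num),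
        Real.sqrt_eq_rpow Δ, ← Real.rpow_mul hD.le, Real.rpow_neg hD.le, div_eq_mul_inv]
      norm_num
    have hpi : (π : ℂ) ^ (1 / 2 : ℂ) = ((Real.sqrt π : ℝ) : ℂ) := by
      have : ((1 / 2 : ℂ)) = (((1 / 2 : ℝ)) : ℂ) := by push_cast; ring
      rw [this, ← Complex.ofReal_cpow Real.pi_pos.le, ← Real.sqrt_eq_rpow]
    rw [hb2, hpi]
    have hsp : ((Real.sqrt π : ℝ) : ℂ) ≠ 0 :=
      Complex.ofReal_ne_zero.2 (Real.sqrt_pos.2 Real.pi_pos).ne'
    push_cast
    field_simp
    ring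


end Pool.Agent.H95.CF
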