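import Pool.Agent.H95.CF.T2B
import Pool.Agent.H95.CF.PRG
import Pool.Agent.H37.CF.Targets

/-!
# Complete family, section 2: the assembly of the algebraic part
-/

set_option autoImplicit false

open NumberField Module MeasureTheory Set Filter
open scoped nonZeroDivisors Real

namespace Pool.Agent.H95.CF

open Pool.Agent.H31.CN
open Pool.Agent.H91.CF (ch npt npD xit xiD pit piD TrQ NRe NVc RQ nn rr ww fmD Fu Zk SQ Uff Q1)
open Pool.Agent.H37.CF (IQ T_RGE T_HGX T_WWB T_GRP)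

/-- the kernels agree -/
theorem kern_eq (f D : ℕ) (Q : QF) (n : ℕ → ℕ) (hf : 1 ≤ f) (hNPQ : T_NPQ) (hD : Fu D)
    (hQ : Q ∈ FD D) (hn : ∀ p, p.Prime → p ∣ f → (n p : ℤ) = npD f p D) (v w : ℤ × ℤ) :
    Pool.Agent.H91.CF.kern f Q v w = kern f n Q v w := by
  classical
  unfold Pool.Agent.H91.CF.kern kern kr
  split_ifs with h
  · obtain ⟨h1, h2⟩ := h
    apply Finset.prod_congr rfl
    intro p hp
    have hpp := Nat.prime_of_mem_primeFactors hp
    have hpf := Nat.dvd_of_mem_primeFactors hp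
    have hnd : ∀ u, Un f Q u → ¬ (p : ℤ) ∣ val Q u := by
      intro u hu hdu
      have h3 : IsUnit (p : ℤ) := hu.isUnit_of_dvd' hdu (by exact_mod_cast hpf)
      have h4 := Int.natAbs_of_isUnit h3
      rw [Int.natAbs_natCast] at h4
      exact hpp.one_lt.ne' h4
    unfold Pool.Agent.H91.CF.kp
    rw [if_neg (by
      rintro (h3 | h3)
      · exact hnd v h1 h3
      · exact hnd w h2 h3)]
    have h5 : (Pool.Agent.H91.CF.npQ f p Q : ℝ) = (n p : ℝ) := by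
      have h6 := (hNPQ f D p Q hD hQ hpp hpf).1
      rw [h6, ← hn p hpp hpf]
      push_cast
      rfl
    rw [h5]
    rfl
  · have hex : ∃ p : ℕ, p ∈ f.primeFactors ∧ ((p : ℤ) ∣ val Q v ∨ (p : ℤ) ∣ val Q w) := by
      by_contra hcon
      push Not at hcon
      apply h
      have hco : ∀ u : ℤ × ℤ, (∀ p ∈ f.primeFactors, ¬ (p : ℤ) ∣ val Q u) → Un f Q u := by
        intro u hu
        unfold Un
        rw [Int.isCoprime_iff_gcd_eq_one]
        by_contra hg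
        obtain ⟨p, hp, hpd⟩ := Nat.exists_prime_and_dvd hg
        have h1 : (p : ℤ) ∣ val Q u := (Int.natCast_dvd_natCast.2 hpd).trans (Int.gcd_dvd_left _ _)
        have h2 : (p : ℤ) ∣ (f : ℤ) := (Int.natCast_dvd_natCast.2 hpd).trans (Int.gcd_dvd_right _ _)
        exact hu p (Nat.mem_primeFactors.2 ⟨hp, by exact_mod_cast h2, by omega⟩) h1
      exact ⟨hco v (fun p hp => (hcon p hp).1), hco w (fun p hp => (hcon p hp).2)⟩
    obtain ⟨p, hp, hd⟩ := hex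
    apply Finset.prod_eq_zero hp
    unfold Pool.Agent.H91.CF.kp
    rw [if_pos hd]

/-- the weights agree -/
theorem om_eq (S : Finset ℕ) (c : ℕ → ℝ) (f D : ℕ) (Q : QF) (hQ : Q ∈ FD D) (v : ℤ × ℤ) :
    Pool.Agent.H91.CF.om S c f Q v = om S c f D Q v := by
  have h1 : dsc Q = (D : ℤ) := hQ.2
  unfold Pool.Agent.H91.CF.om om
  congr 1
  apply Finset.sum_congr rfl
  intro m _
  rw [h1]
  push_cast
  rw [mul_assoc (m : ℝ) (f : ℝ)]
  try ring

theorem pf_PROf (hPRG : T_PRG) (hNPQ : T_NPQ) (hPCT : T_PCT) (hRGE : T_RGE) (hHGX : T_HGX)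
    (hWWB : T_WWB) (hGRP : T_GRP) (hU : Pool.Agent.H91.CF.T_UNFf) : Pool.Agent.H91.CF.T_PROf := by
  intro D f K _ _ hD4 hFu hf hdeg hdis
  classical
  obtain ⟨hprim, hQ1⟩ := hPCT D hFu
  have hIQ : IQ K D := ⟨hD4, hdeg, hdis⟩
  obtain ⟨G, instG, finG, cl, hRG⟩ := hRGE K f hf
  obtain ⟨n, H, hHG, hn⟩ := hHGX K D f G cl hIQ hf hRG
  obtain ⟨hfin, hnn, hww⟩ := hWWB K D f G cl hIQ hFu hf hRG
  obtain ⟨hcard, _⟩ := hGRP K D f G cl hIQ hf hRG
  refine ⟨hfin, hnn, ?_⟩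
  obtain ⟨Q, hQF, hQeq, hmain⟩ := hPRG D K f G cl n H hD4 hdeg hdis hprim hf hRG hHG
  intro S c hS
  have hpfm : pfm D ∈ FD D := by
    refine ⟨by simp [pfm], ?_⟩
    have h2 : D % 4 = 0 ∨ D % 4 = 3 := by
      rcases hFu with ⟨h3, _⟩ | ⟨h3, _⟩
      · exact Or.inr h3
      · exact Or.inl (by omega)
    unfold dsc pfm
    rcases h2 with h3 | h3
    · have h4 : D % 2 = 0 := by omega
      rw [h4]
      push_cast
      omega
    · have h4 : D % 2 = 1 := by omega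
      rw [h4]
      push_cast
      omega
  have hmod : D % 4 = 0 ∨ D % 4 = 3 := by
    rcases hFu with ⟨h3, _⟩ | ⟨h3, _⟩
    · exact Or.inr h3
    · exact Or.inl (by omega)
  obtain ⟨h0, h1⟩ := hmain S c hS
  have h2 : Zk f S c (Q1 D) = ∑' v : ℤ × ℤ, om S c f D (pfm D) v *
      kern f n (pfm D) (1, 0) v := by
    unfold Zk
    rw [hQ1]
    apply tsum_congr
    intro v
    rw [om_eq S c f D (pfm D) hpfm v, kern_eq f D (pfm D) n hf hNPQ hFu hpfm hn]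
  have h3 : ∑ᶠ c' : ClassGroup (𝓞 K), ∑' x : (ℤ × ℤ) × (ℤ × ℤ),
      om S c f D (Q c') x.1 * om S c f D (Q c') x.2 * kern f n (Q c') x.1 x.2 =
      ∑ c' : ClassGroup (𝓞 K), SQ f S c (Q c') := by
    rw [finsum_eq_sum_of_fintype]
    apply Finset.sum_congr rfl
    intro c' _
    unfold SQ
    apply tsum_congr
    intro x
    rw [om_eq S c f D (Q c') (hQF c'), om_eq S c f D (Q c') (hQF c'),
      kern_eq f D (Q c') n hf hNPQ hFu (hQF c') hn]
  have h4 := hU f D hf (by omega) hmod S c hS (ClassGroup (𝓞 K)) Q hQF hQeq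
  rw [← h2, h3, hcard] at h1
  rw [h3] at h0
  have h5 : (0 : ℝ) ≤ ww K f := Nat.cast_nonneg _
  have h6 : (Nat.card {φ : G →* ℂˣ // Prim K f cl φ ∧ NVg K f cl φ} : ℝ) ≤ ww K f := by
    exact_mod_cast hww
  have h7 : 0 ≤ 2 * ∑ m₁ ∈ S, ∑ m₂ ∈ S, c m₁ * c m₂ * Uff m₁ m₂ f D := h0.trans h4
  calc classNumber K * xiD f D * (Zk f S c (Q1 D)) ^ 2
      ≤ (Nat.card {φ : G →* ℂˣ // Prim K f cl φ ∧ NVg K f cl φ} : ℝ) *
        ∑ c' : ClassGroup (𝓞 K), SQ f S c (Q c') := h1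
    _ ≤ (Nat.card {φ : G →* ℂˣ // Prim K f cl φ ∧ NVg K f cl φ} : ℝ) *
        (2 * ∑ m₁ ∈ S, ∑ m₂ ∈ S, c m₁ * c m₂ * Uff m₁ m₂ f D) := by
      apply mul_le_mul_of_nonneg_left h4 (Nat.cast_nonneg _)
    _ ≤ _ := mul_le_mul_of_nonneg_right h6 h7

end Pool.Agent.H95.CF
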