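import Pool.Agent.H31.CN.FinA
import Pool.Agent.H37.CF.All
import Pool.Agent.H95.CF.PROF
import Pool.Agent.H95.CF.PEPR
import Pool.Agent.H35.CF.PDE1
import Pool.Agent.H21.CF.PDE2
import Pool.Agent.H86.CF.PEPG
import Pool.Agent.H98.CF.PGK
import Pool.Agent.H47.CF.PKER
import Pool.Agent.H81.CF.PLFE
import Pool.Agent.H9.CF.PLFN
import Pool.Agent.H49.CF.PMUL
import Pool.Agent.H21.CF.PNCU
import Pool.Agent.H73.CF.PNPQ
import Pool.Agent.H54.CF.POMS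
import Pool.Agent.H14.CF.PPCT
import Pool.Agent.H56.CF.PPRN
import Pool.Agent.H34.CF.PREP
import Pool.Agent.H42.CF.PSGJ
import Pool.Agent.H14.CF.PZRO

/-!
# Complete family, section 2: all parts together
-/

set_option autoImplicit false

namespace Pool.Agent.H95.CF

open Pool.Agent.H31.CN

theorem p_PRN : T_PRN := Pool.Agent.H56.CF.pf_PRN

theorem p_REP : T_REP := Pool.Agent.H34.CF.pf_REP

theorem p_NCU : T_NCU := Pool.Agent.H21.CF.pf_NCU Pool.Agent.H35.CF.pf_DE1 Pool.Agent.H21.CF.pf_DE2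

theorem p_SGJ : T_SGJ := Pool.Agent.H42.CF.pf_SGJ p_PRN p_NCU

theorem p_EPR : T_EPR := pf_EPR Fin.c_THE Fin.c_ZTH

theorem p_EPG : T_EPG := Pool.Agent.H86.CF.pf_EPG p_EPR Fin.c_QDV Fin.c_ZTH

/-- the `L`-functions -/
theorem p_LFN : T_LFN := Pool.Agent.H9.CF.pf_LFN p_REP p_EPG p_SGJ Fin.c_VK

/-- the `L`-functions of the nontrivial characters are entire -/
theorem p_LFE : T_LFE := Pool.Agent.H81.CF.pf_LFE p_REP p_LFN

theorem p_OMS : T_OMS := Pool.Agent.H54.CF.pf_OMS Fin.c_VK p_EPR Fin.c_QDV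

theorem p_ZRO : T_ZRO :=
  Pool.Agent.H14.CF.pf_ZRO p_PRN p_REP p_LFN Pool.Agent.H49.CF.pf_MUL p_OMS

theorem p_KER : T_KER := Pool.Agent.H47.CF.pf_KER Pool.Agent.H35.CF.pf_DE1 Pool.Agent.H21.CF.pf_DE2

theorem p_PRG : T_PRG :=
  pf_PRG p_REP p_ZRO (Pool.Agent.H98.CF.pf_GK Fin.c_CSG) p_KER p_OMS

/-- the proportion for one field and one conductor -/
theorem p_PROf (hU : Pool.Agent.H91.CF.T_UNFf) : Pool.Agent.H91.CF.T_PROf :=
  pf_PROf p_PRG Pool.Agent.H73.CF.pf_NPQ Pool.Agent.H14.CF.pf_PCT Pool.Agent.H37.CF.c_RGE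
    Pool.Agent.H37.CF.c_HGX (Pool.Agent.H37.CF.c_WWB p_LFE) Pool.Agent.H37.CF.c_GRP hU

end Pool.Agent.H95.CF
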