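import Pool.Agent.H95.CF.Defs
import Pool.Agent.H95.CN.OB1
import Pool.Agent.H46.CN.OB4
import Pool.Agent.H46.CN.OB2
import Pool.Agent.H19.CN.HK3

/-!
# Forms and ideals of an imaginary quadratic field, both parities of the discriminant
-/

set_option autoImplicit false

open NumberField Module
open scoped nonZeroDivisors ComplexConjugate

namespace Pool.Agent.H95.CF

open Pool.Agent.H31.CN Pool.Agent.H46.CN

/-- every ideal has an oriented basis -/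
theorem ob1 (D : ℕ) (K : Type) [Field K] [NumberField K] (σ : K →+* ℂ) (hD3 : 3 < D)
    (hr : Module.finrank ℚ K = 2) (hd : discr K = -(D : ℤ)) (I : Ideal (𝓞 K)) (hI : I ≠ ⊥) :
    ∃ (α β : 𝓞 K) (Q : QF), Q ∈ FD D ∧ OB K σ I α β Q := by
  have hdn : discr K < 0 := by rw [hd]; omega
  have hr2 : Module.finrank ℤ (𝓞 K) = 2 := by rw [RingOfIntegers.rank, hr]
  obtain ⟨b0⟩ : Nonempty (Basis (Fin 2) ℤ (𝓞 K)) := ⟨Module.finBasisOfFinrankEq ℤ (𝓞 K) hr2⟩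
  obtain ⟨bI⟩ : Nonempty (Basis (Fin 2) ℤ I) := ⟨Ideal.selfBasis b0 I hI⟩
  have h1 := Pool.Agent.H95.CN.discr_ideal hr I bI
  have h2 := Pool.Agent.H95.CN.discr_pair hr hdn σ (fun i => (bI i : 𝓞 K))
  rw [h1, hd] at h2
  have hdis : 4 * ((conj (σ ((bI 0 : 𝓞 K) : K)) * σ ((bI 1 : 𝓞 K) : K)).im) ^ 2 =
      (Ideal.absNorm I : ℝ) ^ 2 * D := by
    push_cast at h2
    linarith
  have hN0 : Ideal.absNorm I ≠ 0 := by
    rw [Ne, Ideal.absNorm_eq_zero_iff]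
    exact hI
  have hNpos : (0 : ℝ) < Ideal.absNorm I := by exact_mod_cast Nat.pos_of_ne_zero hN0
  have hne : (conj (σ ((bI 0 : 𝓞 K) : K)) * σ ((bI 1 : 𝓞 K) : K)).im ≠ 0 := by
    intro h0
    rw [h0] at hdis
    have : (0 : ℝ) < (Ideal.absNorm I : ℝ) ^ 2 * D := by
      have : (0 : ℝ) < D := by
        have : 0 < D := by omega
        exact_mod_cast this
      positivity
    linarith
  have memI : ∀ γ : 𝓞 K, γ ∈ I ↔ ∃ v : ℤ × ℤ, γ = (v.1 : 𝓞 K) * (bI 0 : 𝓞 K) +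
      (v.2 : 𝓞 K) * (bI 1 : 𝓞 K) := by
    intro γ
    constructor
    · intro hγ
      have h3 := bI.sum_repr ⟨γ, hγ⟩
      rw [Fin.sum_univ_two] at h3
      refine ⟨(bI.repr ⟨γ, hγ⟩ 0, bI.repr ⟨γ, hγ⟩ 1), ?_⟩
      have h4 := congrArg (Subtype.val) h3
      simp only [Submodule.coe_add, Submodule.coe_smul_of_tower, zsmul_eq_mul] at h4
      exact h4.symm
    · rintro ⟨v, rfl⟩
      exact I.add_mem (I.mul_mem_left _ (bI 0).2) (I.mul_mem_left _ (bI 1).2)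
  have injI : ∀ v : ℤ × ℤ, (v.1 : 𝓞 K) * (bI 0 : 𝓞 K) + (v.2 : 𝓞 K) * (bI 1 : 𝓞 K) = 0 →
      v = 0 := by
    intro v hv
    have h3 := bI.linearIndependent
    rw [Fintype.linearIndependent_iff] at h3
    have h4 := h3 ![v.1, v.2] (by
      rw [Fin.sum_univ_two]
      apply Subtype.ext
      simp only [Matrix.cons_val_zero, Matrix.cons_val_one, Submodule.coe_add,
        Submodule.coe_smul_of_tower, zsmul_eq_mul, ZeroMemClass.coe_zero]
      exact hv)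
    exact Prod.ext (h4 0) (h4 1)
  rcases lt_or_gt_of_ne hne with hlt | hgt
  · refine ⟨(bI 1 : 𝓞 K), (bI 0 : 𝓞 K), ?_⟩
    have hsw : (conj (σ ((bI 1 : 𝓞 K) : K)) * σ ((bI 0 : 𝓞 K) : K)).im =
        -(conj (σ ((bI 0 : 𝓞 K) : K)) * σ ((bI 1 : 𝓞 K) : K)).im := by
      simp
      ring
    refine Pool.Agent.H95.CN.ob_of_basis D K σ hr hd hD3 I hI _ _ (bI 1).2 (bI 0).2 ?_ ?_ ?_ ?_
    · intro γ
      rw [memI γ]
      constructor
      · rintro ⟨v, hv⟩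
        exact ⟨(v.2, v.1), by rw [hv, add_comm]⟩
      · rintro ⟨v, hv⟩
        exact ⟨(v.2, v.1), by rw [hv, add_comm]⟩
    · intro v hv
      have := injI (v.2, v.1) (by rw [← hv, add_comm])
      exact Prod.ext (congrArg Prod.snd this) (congrArg Prod.fst this)
    · rw [hsw, neg_sq]
      exact hdis
    · rw [hsw]
      linarith
  · refine ⟨(bI 0 : 𝓞 K), (bI 1 : 𝓞 K), ?_⟩
    exact Pool.Agent.H95.CN.ob_of_basis D K σ hr hd hD3 I hI _ _ (bI 0).2 (bI 1).2 memI injI hdis hgt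

/-- reduction of a form which represents `1` -/
theorem ob0_red (A B C x y : ℤ) (D : ℕ) (hd : 4 * A * C - B ^ 2 = D)
    (h1 : A * x ^ 2 + B * x * y + C * y ^ 2 = 1) :
    ∃ u w : ℤ, x * w - y * u = 1 ∧
      2 * A * x * u + B * (x * w + u * y) + 2 * C * y * w = ((D % 2 : ℕ) : ℤ) ∧
      A * u ^ 2 + B * u * w + C * w ^ 2 = (((D + D % 2) / 4 : ℕ) : ℤ) := by
  have hcop : ∃ u w : ℤ, x * w - y * u = 1 :=
    ⟨-(B * x + C * y), A * x, by linear_combination h1⟩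
  obtain ⟨u, w, huw⟩ := hcop
  set B' := 2 * A * x * u + B * (x * w + u * y) + 2 * C * y * w with hB'
  have hdisc : 4 * (A * u ^ 2 + B * u * w + C * w ^ 2) - B' ^ 2 = D := by
    have h2 : 4 * ((A * x ^ 2 + B * x * y + C * y ^ 2) *
        (A * u ^ 2 + B * u * w + C * w ^ 2)) - B' ^ 2 =
        (4 * A * C - B ^ 2) * (x * w - y * u) ^ 2 := by
      rw [hB']
      ring
    rw [h1, huw, hd] at h2
    linarith
  obtain ⟨δ, hδ⟩ : ∃ δ : ℤ, δ = ((D % 2 : ℕ) : ℤ) := ⟨_, rfl⟩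
  have hδ2 : δ = D % 2 := by rw [hδ]; push_cast; rfl
  have hpar : (B' - δ) % 2 = 0 := by
    rcases Int.even_or_odd B' with h | h
    · obtain ⟨s, hs⟩ := h
      rw [hs] at hdisc
      have h3 : (D : ℤ) = 2 * (2 * (A * u ^ 2 + B * u * w + C * w ^ 2) - 2 * s ^ 2) := by
        linear_combination -hdisc
      omega
    · obtain ⟨s, hs⟩ := h
      rw [hs] at hdisc
      have h3 : (D : ℤ) = 2 * (2 * (A * u ^ 2 + B * u * w + C * w ^ 2) - 2 * s ^ 2 - 2 * s - 1) + 1 := by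
        linear_combination -hdisc
      omega
  obtain ⟨t, ht⟩ : ∃ t : ℤ, B' + 2 * t = δ := ⟨-((B' - δ) / 2), by omega⟩
  rw [← hδ]
  refine ⟨u + t * x, w + t * y, by linear_combination huw, ?_, ?_⟩
  · have h4 : 2 * A * x * (u + t * x) + B * (x * (w + t * y) + (u + t * x) * y) +
        2 * C * y * (w + t * y) = B' + 2 * t * (A * x ^ 2 + B * x * y + C * y ^ 2) := by
      rw [hB']
      ring
    rw [h4, h1, mul_one, ht]
  · have h5 : A * (u + t * x) ^ 2 + B * (u + t * x) * (w + t * y) + C * (w + t * y) ^ 2 =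
        (A * u ^ 2 + B * u * w + C * w ^ 2) + t * B' +
          t ^ 2 * (A * x ^ 2 + B * x * y + C * y ^ 2) := by
      rw [hB']
      ring
    rw [h1] at h5
    have hδδ : δ ^ 2 = δ := by
      have : δ = 0 ∨ δ = 1 := by omega
      rcases this with h | h <;> rw [h] <;> norm_num
    have h6 : 4 * (A * (u + t * x) ^ 2 + B * (u + t * x) * (w + t * y) +
        C * (w + t * y) ^ 2) = D + δ := by
      rw [h5]
      have h7 : (B' + 2 * t) ^ 2 = δ := by rw [ht, hδδ]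
      linear_combination hdisc + h7
    push_cast
    omega

/-- the principal form -/
def pfm (D : ℕ) : QF := (1, ((D % 2 : ℕ) : ℤ), (((D + D % 2) / 4 : ℕ) : ℤ))

/-- the unit ideal has the principal form -/
theorem ob0 (D : ℕ) (K : Type) [Field K] [NumberField K] (σ : K →+* ℂ) (hD3 : 3 < D)
    (hfr : Module.finrank ℚ K = 2) (hdis : discr K = -(D : ℤ)) :
    pfm D ∈ FD D ∧ ∃ (α β : 𝓞 K), OB K σ ⊤ α β (pfm D) := by
  obtain ⟨α, β, Q, hQ, hOB⟩ := ob1 D K σ hD3 hfr hdis ⊤ top_ne_bot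
  obtain ⟨⟨x, y⟩, hxy⟩ := (hOB.mem 1).1 Submodule.mem_top
  have hxy' : (x : 𝓞 K) * α + (y : 𝓞 K) * β = 1 := hxy.symm
  have hone : val Q (x, y) = 1 := by
    have h1 := hOB.nrm (x, y)
    change Complex.normSq (σ (((x : 𝓞 K) * α + (y : 𝓞 K) * β : 𝓞 K) : K)) = _ at h1
    rw [hxy', Ideal.absNorm_top] at h1
    have h2 : ((1 : 𝓞 K) : K) = 1 := rfl
    rw [h2, map_one, map_one, Nat.cast_one, one_mul] at h1
    exact_mod_cast h1.symm
  obtain ⟨u, w, huw, hB, hC⟩ := ob0_red Q.1 Q.2.1 Q.2.2 x y D hQ.2 hone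
  have huwK : (x : 𝓞 K) * w - y * u = 1 := by exact_mod_cast congrArg (Int.cast : ℤ → 𝓞 K) huw
  have hcomb : ∀ v : ℤ × ℤ, (v.1 : 𝓞 K) * 1 + (v.2 : 𝓞 K) * ((u : 𝓞 K) * α + (w : 𝓞 K) * β) =
      ((v.1 * x + v.2 * u : ℤ) : 𝓞 K) * α + ((v.1 * y + v.2 * w : ℤ) : 𝓞 K) * β := by
    intro v
    rw [← hxy']
    push_cast
    ring
  have hval : ∀ v : ℤ × ℤ, val Q (v.1 * x + v.2 * u, v.1 * y + v.2 * w) = val (pfm D) v := by
    intro v
    have h3 : val Q (x, y) = Q.1 * x ^ 2 + Q.2.1 * x * y + Q.2.2 * y ^ 2 := rfl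
    have h4 : val Q (v.1 * x + v.2 * u, v.1 * y + v.2 * w) =
        val Q (x, y) * v.1 ^ 2 + (2 * Q.1 * x * u + Q.2.1 * (x * w + u * y) +
          2 * Q.2.2 * y * w) * v.1 * v.2 +
          (Q.1 * u ^ 2 + Q.2.1 * u * w + Q.2.2 * w ^ 2) * v.2 ^ 2 := by
      rw [h3]
      unfold val
      ring
    rw [h4, hone, hB, hC]
    rfl
  have hpfm : pfm D ∈ FD D := by
    refine ⟨one_pos, ?_⟩
    have h1 : dsc (pfm D) = 4 * (Q.1 * u ^ 2 + Q.2.1 * u * w + Q.2.2 * w ^ 2) -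
        (2 * Q.1 * x * u + Q.2.1 * (x * w + u * y) + 2 * Q.2.2 * y * w) ^ 2 := by
      rw [hB, hC]
      unfold dsc pfm
      ring
    rw [h1, ← hQ.2]
    have h2 : 4 * ((Q.1 * x ^ 2 + Q.2.1 * x * y + Q.2.2 * y ^ 2) *
        (Q.1 * u ^ 2 + Q.2.1 * u * w + Q.2.2 * w ^ 2)) -
        (2 * Q.1 * x * u + Q.2.1 * (x * w + u * y) + 2 * Q.2.2 * y * w) ^ 2 =
        (4 * Q.1 * Q.2.2 - Q.2.1 ^ 2) * (x * w - y * u) ^ 2 := by ring
    have h3 : Q.1 * x ^ 2 + Q.2.1 * x * y + Q.2.2 * y ^ 2 = 1 := hone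
    rw [h3, huw] at h2
    unfold dsc
    linarith
  refine ⟨hpfm, 1, (u : 𝓞 K) * α + (w : 𝓞 K) * β, ?_, ?_, ?_, ?_⟩
  · intro γ
    refine ⟨fun hγ => ?_, fun _ => Submodule.mem_top⟩
    obtain ⟨v, hv⟩ := (hOB.mem γ).1 hγ
    refine ⟨(v.1 * w - v.2 * u, v.2 * x - v.1 * y), ?_⟩
    rw [hcomb, hv]
    have e1 : (v.1 * w - v.2 * u) * x + (v.2 * x - v.1 * y) * u = v.1 := by
      linear_combination v.1 * huw
    have e2 : (v.1 * w - v.2 * u) * y + (v.2 * x - v.1 * y) * w = v.2 := by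
      linear_combination v.2 * huw
    change _ = (((v.1 * w - v.2 * u) * x + (v.2 * x - v.1 * y) * u : ℤ) : 𝓞 K) * α +
      (((v.1 * w - v.2 * u) * y + (v.2 * x - v.1 * y) * w : ℤ) : 𝓞 K) * β
    rw [e1, e2]
  · intro v hv
    rw [hcomb] at hv
    have h1 := hOB.inj (v.1 * x + v.2 * u, v.1 * y + v.2 * w) hv
    have h2 := Prod.mk.inj h1
    refine Prod.ext ?_ ?_
    · change v.1 = 0
      linear_combination w * h2.1 - u * h2.2 - v.1 * huw
    · change v.2 = 0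
      linear_combination x * h2.2 - y * h2.1 - v.2 * huw
  · intro v
    rw [hcomb]
    have h1 := hOB.nrm (v.1 * x + v.2 * u, v.1 * y + v.2 * w)
    have h2 := hval v
    rw [h2] at h1
    exact h1
  · have h1 := hOB.ori
    have h2 : ((1 : 𝓞 K) : K) = (((x : 𝓞 K) * α + (y : 𝓞 K) * β : 𝓞 K) : K) := by rw [hxy']
    have h3 : σ ((1 : 𝓞 K) : K) = (x : ℂ) * σ (α : K) + (y : ℂ) * σ (β : K) := by
      rw [h2]
      simp
    have h4 : σ (((u : 𝓞 K) * α + (w : 𝓞 K) * β : 𝓞 K) : K) =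
        (u : ℂ) * σ (α : K) + (w : ℂ) * σ (β : K) := by
      simp
    rw [h3, h4]
    have h5 : ((starRingEnd ℂ) ((x : ℂ) * σ (α : K) + (y : ℂ) * σ (β : K)) *
        ((u : ℂ) * σ (α : K) + (w : ℂ) * σ (β : K))).im =
        ((x * w - y * u : ℤ) : ℝ) * ((starRingEnd ℂ) (σ (α : K)) * σ (β : K)).im := by
      simp only [map_add, map_mul, Complex.mul_im, Complex.mul_re, Complex.add_re, Complex.add_im,
        Complex.conj_re, Complex.conj_im, Complex.intCast_re, Complex.intCast_im]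
      push_cast
      ring
    rw [h5, huw]
    simpa using h1

/-- the units are trivial -/
theorem unit_triv (D : ℕ) (K : Type) [Field K] [NumberField K] (σ : K →+* ℂ)
    (hD : 4 < D) (hfin : Module.finrank ℚ K = 2)
    (hdis : discr K = -(D : ℤ)) (u : (𝓞 K)ˣ) : (u : 𝓞 K) = 1 ∨ (u : 𝓞 K) = -1 := by
  obtain ⟨hp, α, β, h⟩ := ob0 D K σ (by omega) hfin hdis
  have hform : ∀ v : ℤ × ℤ, val (pfm D) v = 1 → v.2 = 0 ∧ (v.1 = 1 ∨ v.1 = -1) := by
    intro v hv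
    have h1 : (2 * v.1 + (D % 2 : ℕ) * v.2) ^ 2 + D * v.2 ^ 2 = 4 := by
      have h2 : 4 * val (pfm D) v = (2 * v.1 + (D % 2 : ℕ) * v.2) ^ 2 + dsc (pfm D) * v.2 ^ 2 := by
        unfold val dsc pfm
        ring
      rw [hp.2, hv] at h2
      linarith
    have h2 : v.2 = 0 := by
      by_contra hne
      have h3 : 1 ≤ v.2 ^ 2 := by
        have h4 : v.2 ^ 2 ≠ 0 := pow_ne_zero 2 hne
        have := sq_nonneg v.2
        omega
      have h5 := sq_nonneg (2 * v.1 + ((D % 2 : ℕ) : ℤ) * v.2)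
      have h6 : (4 : ℤ) < D := by exact_mod_cast hD
      nlinarith
    refine ⟨h2, ?_⟩
    rw [h2] at h1
    have h3 : (v.1 - 1) * (v.1 + 1) = 0 := by nlinarith
    rcases mul_eq_zero.1 h3 with h4 | h4
    · left; omega
    · right; omega
  have key : ∀ u : (𝓞 K)ˣ, (u : 𝓞 K) = α ∨ (u : 𝓞 K) = -α := by
    intro u
    obtain ⟨v, hv⟩ := (h.mem (u : 𝓞 K)).1 trivial
    have h1 := absNorm_span K σ hfin (OB_im K σ _ α β _ h) (u : 𝓞 K)
    have h2 := h.nrm v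
    rw [← hv, ← h1, Ideal.span_singleton_eq_top.2 u.isUnit, Ideal.absNorm_top] at h2
    have h3 : val (pfm D) v = 1 := by
      have h4 : (val (pfm D) v : ℝ) = 1 := by
        rw [Nat.cast_one, one_mul] at h2
        exact h2.symm
      exact_mod_cast h4
    obtain ⟨h5, h6⟩ := hform v h3
    rw [hv, h5]
    rcases h6 with h6 | h6 <;> rw [h6] <;> simp
  have h1 := key 1
  have h2 := key u
  rw [Units.val_one] at h1
  rcases h1 with h1 | h1 <;> rcases h2 with h2 | h2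
  · left; rw [h2, h1]
  · right; rw [h2, h1]
  · right; rw [h2, h1, neg_neg]
  · left; rw [h2, h1]

/-- (OB3) the vectors of an ideal and the integral ideals of the inverse class. -/
theorem ob3 (D : ℕ) (K : Type) [Field K] [NumberField K] (σ : K →+* ℂ) (hD : 4 < D)
    (hfin : Module.finrank ℚ K = 2) (hdis : discr K = -(D : ℤ)) (I : (Ideal (𝓞 K))⁰) (α β : 𝓞 K)
    (Q : QF) (h : OB K σ I α β Q) : ∃ b : ℤ × ℤ → (Ideal (𝓞 K))⁰,
      (∀ v, v ≠ 0 → Ideal.span {(v.1 : 𝓞 K) * α + (v.2 : 𝓞 K) * β} =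
        (b v : Ideal (𝓞 K)) * I) ∧
      (∀ v, v ≠ 0 → ClassGroup.mk0 (b v) = (ClassGroup.mk0 I)⁻¹ ∧
        (Ideal.absNorm (b v : Ideal (𝓞 K)) : ℤ) = val Q v) ∧
      (∀ J : (Ideal (𝓞 K))⁰, ClassGroup.mk0 J = (ClassGroup.mk0 I)⁻¹ → ∃ v, v ≠ 0 ∧ b v = J) ∧
      (∀ v v', v ≠ 0 → v' ≠ 0 → (b v = b v' ↔ v' = v ∨ v' = -v)) := by
  have hI0 : (I : Ideal (𝓞 K)) ≠ 0 := nonZeroDivisors.coe_ne_zero I
  have hne : ∀ v : ℤ × ℤ, v ≠ 0 → (v.1 : 𝓞 K) * α + (v.2 : 𝓞 K) * β ≠ 0 :=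
    fun v hv h0 => hv (h.inj v h0)
  have hex : ∀ v : ℤ × ℤ, ∃ b : (Ideal (𝓞 K))⁰, v ≠ 0 →
      Ideal.span {(v.1 : 𝓞 K) * α + (v.2 : 𝓞 K) * β} = (b : Ideal (𝓞 K)) * I := by
    intro v
    by_cases hv : v = 0
    · exact ⟨1, fun h => absurd hv h⟩
    · have hmem : (v.1 : 𝓞 K) * α + (v.2 : 𝓞 K) * β ∈ (I : Ideal (𝓞 K)) := (h.mem _).2 ⟨v, rfl⟩
      have hdvd : (I : Ideal (𝓞 K)) ∣ Ideal.span {(v.1 : 𝓞 K) * α + (v.2 : 𝓞 K) * β} := by
        rw [Ideal.dvd_span_singleton]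
        exact hmem
      obtain ⟨c, hc⟩ := hdvd
      have hc0 : c ≠ 0 := by
        rintro rfl
        rw [mul_zero] at hc
        exact hne v hv (Ideal.span_singleton_eq_bot.1 hc)
      exact ⟨⟨c, mem_nonZeroDivisors_of_ne_zero hc0⟩, fun _ => by rw [hc, mul_comm]⟩
  choose b hb using hex
  refine ⟨b, hb, fun v hv => ⟨?_, ?_⟩, fun J hJ => ?_, fun v v' hv hv' => ?_⟩
  · rw [eq_inv_iff_mul_eq_one, ← map_mul, ClassGroup.mk0_eq_one_iff]
    refine ⟨⟨(v.1 : 𝓞 K) * α + (v.2 : 𝓞 K) * β, ?_⟩⟩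
    rw [Submonoid.coe_mul, ← hb v hv, Ideal.submodule_span_eq]
  · exact OB_quot K σ hfin I (b v) α β Q h v (hb v hv)
  · rw [eq_inv_iff_mul_eq_one, ← map_mul, ClassGroup.mk0_eq_one_iff] at hJ
    obtain ⟨⟨γ, hγ⟩⟩ := hJ
    have hγ' : (J : Ideal (𝓞 K)) * I = Ideal.span {γ} := by
      rw [← Submonoid.coe_mul, hγ, Ideal.submodule_span_eq]
    have hmem : γ ∈ (I : Ideal (𝓞 K)) := by
      have h1 : γ ∈ (J : Ideal (𝓞 K)) * I := by
        rw [hγ']
        exact Ideal.mem_span_singleton_self γ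
      exact Ideal.mul_le_right h1
    obtain ⟨v, hv⟩ := (h.mem γ).1 hmem
    have hv0 : v ≠ 0 := by
      rintro rfl
      simp only [Prod.fst_zero, Prod.snd_zero, Int.cast_zero, zero_mul, add_zero] at hv
      rw [hv] at hγ'
      have h1 : (J : Ideal (𝓞 K)) * I = 0 := by
        rw [hγ']
        simp
      exact mul_ne_zero (nonZeroDivisors.coe_ne_zero J) hI0 h1
    refine ⟨v, hv0, ?_⟩
    have h2 := hb v hv0
    rw [← hv, ← hγ'] at h2
    exact Subtype.ext (mul_right_cancel₀ hI0 h2.symm)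
  · constructor
    · intro hbb
      have h1 := hb v hv
      rw [hbb, ← hb v' hv', Ideal.span_singleton_eq_span_singleton] at h1
      obtain ⟨u, hu⟩ := h1
      rcases unit_triv D K σ hD hfin hdis u with h2 | h2
      · left
        rw [h2, mul_one] at hu
        have h3 := h.inj (v' - v) (by
          simp only [Prod.fst_sub, Prod.snd_sub]
          push_cast
          linear_combination -hu)
        exact sub_eq_zero.1 h3
      · right
        rw [h2] at hu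
        have h3 := h.inj (v' + v) (by
          simp only [Prod.fst_add, Prod.snd_add]
          push_cast
          linear_combination -hu)
        exact eq_neg_of_add_eq_zero_left h3
    · intro hvv
      have h1 : Ideal.span {(v.1 : 𝓞 K) * α + (v.2 : 𝓞 K) * β} =
          Ideal.span {(v'.1 : 𝓞 K) * α + (v'.2 : 𝓞 K) * β} := by
        rcases hvv with rfl | rfl
        · rfl
        · rw [Ideal.span_singleton_eq_span_singleton]
          refine ⟨-1, ?_⟩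
          simp only [Prod.fst_neg, Prod.snd_neg, Units.val_neg, Units.val_one]
          push_cast
          ring
      rw [hb v hv, hb v' hv'] at h1
      exact Subtype.ext (mul_right_cancel₀ hI0 h1)

/-- (OB4) the local numbers count the prime divisors of norm `p`. -/
theorem ob4 (K : Type) [Field K] [NumberField K] (σ : K →+* ℂ)
    (hfin : Module.finrank ℚ K = 2) (I b : (Ideal (𝓞 K))⁰) (α β : 𝓞 K) (Q : QF)
    (v : ℤ × ℤ) (p : ℕ) (h : OB K σ I α β Q) (hp : p.Prime)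
    (hb : Ideal.span {(v.1 : 𝓞 K) * α + (v.2 : 𝓞 K) * β} = (b : Ideal (𝓞 K)) * I) :
      nul p Q v = Nat.card {P : Ideal (𝓞 K) // Ideal.absNorm P = p ∧ P ∣ (b : Ideal (𝓞 K))} := by
  classical
  have hHK3 : T_HK3 := Pool.Agent.H19.CN.pf_HK3
  rw [nul_eq hHK3 p hp Q v]
  set S := (Rp p).filter (fun w => (p : ℤ) ∣ val Q w ∧
      (p : ℤ) ∣ w.1 * v.2 - w.2 * v.1) with hS
  have hne : ∀ w ∈ Rp p, w ≠ 0 := by
    rintro w hw rfl
    exact Rp_prim p hp _ hw (by simp)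
  have hex : ∀ w : ℤ × ℤ, ∃ c : (Ideal (𝓞 K))⁰, w ≠ 0 →
      Ideal.span {(w.1 : 𝓞 K) * α + (w.2 : 𝓞 K) * β} = (c : Ideal (𝓞 K)) * I := by
    intro w
    by_cases hw : w = 0
    · exact ⟨1, fun h => absurd hw h⟩
    · obtain ⟨c, hc⟩ := OB_b K σ I α β Q h w hw
      exact ⟨c, fun _ => hc⟩
  choose c hc using hex
  have hmemS : ∀ w : S, (w : ℤ × ℤ) ∈ Rp p ∧ (p : ℤ) ∣ val Q w ∧
      (p : ℤ) ∣ (w : ℤ × ℤ).1 * v.2 - (w : ℤ × ℤ).2 * v.1 := by
    intro w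
    exact Finset.mem_filter.1 w.2
  have hnorm : ∀ w : S, Ideal.absNorm (Ideal.span {(p : 𝓞 K)} ⊔ (c w : Ideal (𝓞 K))) = p := by
    intro w
    obtain ⟨h1, h2, h3⟩ := hmemS w
    exact norm_P K σ I α β Q hfin h p hp w (Rp_prim p hp _ h1) h2 _ (hc w (hne _ h1))
  let f : S → {P : Ideal (𝓞 K) // Ideal.absNorm P = p ∧ P ∣ (b : Ideal (𝓞 K))} := fun w =>
    ⟨Ideal.span {(p : 𝓞 K)} ⊔ (c w : Ideal (𝓞 K)), hnorm w,
      (dvd_P K σ I α β Q h p hp w v (hmemS w).1 (c w) b (hc w (hne _ (hmemS w).1)) hb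
        (hnorm w)).2 (hmemS w).2.2⟩
  rw [← Fintype.card_coe, ← Nat.card_eq_fintype_card]
  apply Nat.card_eq_of_bijective f
  constructor
  · intro w w' hww
    have h1 : Ideal.span {(p : 𝓞 K)} ⊔ (c w : Ideal (𝓞 K)) =
        Ideal.span {(p : 𝓞 K)} ⊔ (c w' : Ideal (𝓞 K)) := congrArg Subtype.val hww
    have h2 : Ideal.span {(p : 𝓞 K)} ⊔ (c w : Ideal (𝓞 K)) ∣ (c w' : Ideal (𝓞 K)) := by
      rw [h1]
      exact Ideal.dvd_iff_le.2 le_sup_right
    have h3 := (dvd_P K σ I α β Q h p hp w w' (hmemS w).1 (c w) (c w')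
      (hc w (hne _ (hmemS w).1)) (hc w' (hne _ (hmemS w').1)) (hnorm w)).1 h2
    exact Subtype.ext (Rp_inj p hp _ _ (hmemS w).1 (hmemS w').1 h3)
  · rintro ⟨P, hP1, hP2⟩
    obtain ⟨w, hw1, hw2, hw3⟩ := ex_P K σ I α β Q hfin h p hp P hP1
    have h4 := hw3 (c w) (hc w (hne w hw1))
    have h5 : (p : ℤ) ∣ w.1 * v.2 - w.2 * v.1 := by
      apply (dvd_P K σ I α β Q h p hp w v hw1 (c w) b (hc w (hne w hw1)) hb (by rw [h4, hP1])).1
      rw [h4]
      exact hP2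
    refine ⟨⟨w, ?_⟩, ?_⟩
    · rw [hS, Finset.mem_filter]
      exact ⟨hw1, hw2, h5⟩
    · exact Subtype.ext h4

/-- primitive forms have only trivial automorphisms -/
theorem aut (D : ℕ) (Q : QF) (g : Matrix.SpecialLinearGroup (Fin 2) ℤ) (hD : 4 < D)
    (hsq : ∀ t : ℕ, (t : ℤ) ∣ Q.1 → (t : ℤ) ∣ Q.2.1 → (t : ℤ) ∣ Q.2.2 → t = 1)
    (hQ : Q ∈ FD D) (hact : act Q g = Q) : g = 1 ∨ g = -1 := by
  obtain ⟨A, B, C⟩ := Q
  obtain ⟨hA, hdsc⟩ := hQ
  have hdet : g 0 0 * g 1 1 - g 0 1 * g 1 0 = 1 := by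
    have := g.2
    rw [Matrix.det_fin_two] at this
    exact this
  obtain ⟨a, ha⟩ : ∃ a, a = g 0 0 := ⟨_, rfl⟩
  obtain ⟨b, hb⟩ : ∃ b, b = g 0 1 := ⟨_, rfl⟩
  obtain ⟨c, hc⟩ : ∃ c, c = g 1 0 := ⟨_, rfl⟩
  obtain ⟨d, hd⟩ : ∃ d, d = g 1 1 := ⟨_, rfl⟩
  simp only [act, val, Prod.mk.injEq, ← ha, ← hb, ← hc, ← hd] at hact
  rw [← ha, ← hb, ← hc, ← hd] at hdet
  simp only [dsc] at hA hdsc
  obtain ⟨h1, h2, h3⟩ := hact
  have e1 : A * (d - a) = B * c := by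
    have : 2 * (A * (d - a)) = 2 * (B * c) := by
      linear_combination (-2 * d) * h1 + c * h2 + (2 * A * a + B * c) * hdet
    linarith
  have e2 : A * b = -(C * c) := by
    have : 2 * (A * b) = 2 * (-(C * c)) := by
      linear_combination d * h2 - 2 * c * h3 - (2 * A * b + B * d) * hdet
    linarith
  have hg1 : Int.gcd A (Int.gcd B C : ℤ) = 1 := by
    obtain ⟨t, ht⟩ : ∃ t, t = Int.gcd A (Int.gcd B C : ℤ) := ⟨_, rfl⟩
    rw [← ht]
    have t1 : (t : ℤ) ∣ A := by rw [ht]; exact Int.gcd_dvd_left ..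
    have t2 : (t : ℤ) ∣ (Int.gcd B C : ℤ) := by rw [ht]; exact Int.gcd_dvd_right ..
    have t3 : (t : ℤ) ∣ B := t2.trans (Int.gcd_dvd_left ..)
    have t4 : (t : ℤ) ∣ C := t2.trans (Int.gcd_dvd_right ..)
    exact hsq t t1 t3 t4
  obtain ⟨x, y, z, hxyz⟩ : ∃ x y z : ℤ, A * x + B * y + C * z = 1 := by
    have u1 := Int.gcd_eq_gcd_ab A (Int.gcd B C : ℤ)
    have u2 := Int.gcd_eq_gcd_ab B C
    rw [hg1] at u1
    refine ⟨A.gcdA (Int.gcd B C : ℤ), B.gcdA C * A.gcdB (Int.gcd B C : ℤ),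
      B.gcdB C * A.gcdB (Int.gcd B C : ℤ), ?_⟩
    have u3 : (Int.gcd B C : ℤ) * A.gcdB (Int.gcd B C : ℤ) =
        (B * B.gcdA C + C * B.gcdB C) * A.gcdB (Int.gcd B C : ℤ) :=
      congrArg (fun t => t * A.gcdB (Int.gcd B C : ℤ)) u2
    push_cast at u1
    linear_combination -u1 - u3
  obtain ⟨u, hu⟩ : ∃ u, c = A * u := by
    refine ⟨c * x + (d - a) * y - b * z, ?_⟩
    linear_combination (-c) * hxyz - y * e1 + z * e2
  have f1 : d - a = B * u := by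
    refine mul_left_cancel₀ hA.ne' ?_
    rw [e1, hu]; ring
  have f2 : b = -(C * u) := by
    refine mul_left_cancel₀ hA.ne' ?_
    rw [e2, hu]; ring
  have hsqr : (a + d) ^ 2 = 4 - D * u ^ 2 := by
    rw [← hdsc]
    have h4 : (d - a) ^ 2 = (B * u) ^ 2 := by rw [f1]
    have h5 : b * c = -(C * u) * (A * u) := by rw [← f2, ← hu]
    linear_combination h4 + 4 * hdet + 4 * h5
  have hu0 : u = 0 := by
    by_contra hne
    have : 1 ≤ u ^ 2 := by
      have := sq_nonneg u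
      rcases lt_or_gt_of_ne hne with h | h <;> nlinarith
    have hD' : (4 : ℤ) < D := by exact_mod_cast hD
    nlinarith [sq_nonneg (a + d)]
  subst hu0
  have hc0 : c = 0 := by rw [hu]; ring
  have hb0 : b = 0 := by rw [f2]; ring
  have had : d = a := by linarith [f1]
  have haa : a * a = 1 := by
    rw [hc0, hb0, had] at hdet
    linarith
  rcases mul_self_eq_one_iff.1 haa with h | h
  · left
    ext i j
    fin_cases i <;> fin_cases j <;> simp [← ha, ← hb, ← hc, ← hd, hb0, hc0, had, h]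
  · right
    ext i j
    fin_cases i <;> fin_cases j <;> simp [← ha, ← hb, ← hc, ← hd, hb0, hc0, had, h]


end Pool.Agent.H95.CF
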