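import Pool.Agent.H5.CF.Targets

set_option autoImplicit false

namespace Pool.Agent.H95.CF

open Pool.Agent.H5.CF

variable {K : ℕ} {S : Sys K}

lemma TL.root_mem {n : ℕ} {X : Set S.Λ} {ℓ : S.Λ} {m : Fin K → ℕ} (h : TL S n X ℓ m) :
    ℓ ∈ X ∧ 0 < n := by
  cases h with
  | leaf _ _ => exact ⟨rfl, one_pos⟩
  | node _ _ _ _ _ _ _ _ _ _ _ _ => exact ⟨Set.mem_insert _ _, Nat.succ_pos _⟩

lemma CL.root_mem {n : ℕ} {X : Set S.Λ} {ℓ ℓ' : S.Λ} {m : Fin K → ℕ} (h : CL S n X ℓ ℓ' m) :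
    ℓ ∈ X ∧ ℓ' ∈ X := by
  induction h with
  | hole ℓ => exact ⟨rfl, rfl⟩
  | left ℓ ℓ₁ ℓ₂ ℓ' a b X Y m₁ m₂ hR hc ht ih =>
    exact ⟨Set.mem_insert _ _, Set.mem_insert_of_mem _ (Or.inl ih.2)⟩
  | right ℓ ℓ₁ ℓ₂ ℓ' a b X Y m₁ m₂ hR hc ht ih =>
    exact ⟨Set.mem_insert _ _, Set.mem_insert_of_mem _ (Or.inr ih.2)⟩

lemma CL.plug {a b : ℕ} {X Y : Set S.Λ} {ℓ ℓ' : S.Λ} {m m' : Fin K → ℕ}
    (h : CL S a X ℓ ℓ' m) (ht : TL S b Y ℓ' m') : TL S (a + b) (X ∪ Y) ℓ (m + m') := by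
  induction h with
  | hole ℓ =>
    have h1 : ({ℓ} ∪ Y : Set S.Λ) = Y := by
      rw [Set.union_eq_right]
      exact Set.singleton_subset_iff.2 (TL.root_mem ht).1
    rw [h1, zero_add, zero_add]
    exact ht
  | left ℓ ℓ₁ ℓ₂ ℓ' a c X Z m₁ m₂ hR hc ht' ih =>
    have := TL.node ℓ ℓ₁ ℓ₂ _ _ _ _ _ _ hR (ih ht) ht'
    convert this using 1
    · ring
    · ext x; simp only [Set.mem_union, Set.mem_insert_iff]; tauto
    · rw [add_right_comm]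
  | right ℓ ℓ₁ ℓ₂ ℓ' c a Z X m₁ m₂ hR ht' hc ih =>
    have := TL.node ℓ ℓ₁ ℓ₂ _ _ _ _ _ _ hR ht' (ih ht)
    convert this using 1
    · ring
    · ext x; simp only [Set.mem_union, Set.mem_insert_iff]; tauto
    · rw [add_assoc]

lemma CL.comp {a b : ℕ} {X Y : Set S.Λ} {ℓ ℓ' ℓ'' : S.Λ} {m m' : Fin K → ℕ}
    (h : CL S a X ℓ ℓ' m) (ht : CL S b Y ℓ' ℓ'' m') : CL S (a + b) (X ∪ Y) ℓ ℓ'' (m + m') := by
  induction h with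
  | hole ℓ =>
    have h1 : ({ℓ} ∪ Y : Set S.Λ) = Y := by
      rw [Set.union_eq_right]
      exact Set.singleton_subset_iff.2 (CL.root_mem ht).1
    rw [h1, zero_add, zero_add]
    exact ht
  | left ℓ ℓ₁ ℓ₂ ℓ' a c X Z m₁ m₂ hR hc ht' ih =>
    have := CL.left ℓ ℓ₁ ℓ₂ _ _ _ _ _ _ _ hR (ih ht) ht'
    convert this using 1
    · ring
    · ext x; simp only [Set.mem_union, Set.mem_insert_iff]; tauto
    · rw [add_right_comm]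
  | right ℓ ℓ₁ ℓ₂ ℓ' c a Z X m₁ m₂ hR ht' hc ih =>
    have := CL.right ℓ ℓ₁ ℓ₂ _ _ _ _ _ _ _ hR ht' (ih ht)
    convert this using 1
    · ring
    · ext x; simp only [Set.mem_union, Set.mem_insert_iff]; tauto
    · rw [add_assoc]

lemma TL.extract {n : ℕ} {X : Set S.Λ} {ℓ ℓ' : S.Λ} {m : Fin K → ℕ} (h : TL S n X ℓ m)
    (hm : ℓ' ∈ X) : ∃ (a b : ℕ) (Y Z : Set S.Λ) (m₁ m₂ : Fin K → ℕ),
      CL S a Y ℓ ℓ' m₁ ∧ TL S b Z ℓ' m₂ ∧ n = a + b ∧ X = Y ∪ Z ∧ m = m₁ + m₂ := by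
  induction h with
  | leaf ℓ hl =>
    rw [Set.mem_singleton_iff] at hm
    subst hm
    exact ⟨0, 1, {ℓ'}, {ℓ'}, 0, _, CL.hole _, TL.leaf _ hl, by simp, by simp, by simp⟩
  | node ℓ ℓ₁ ℓ₂ a b X Y m₁ m₂ hR h1 h2 ih1 ih2 =>
    rcases hm with rfl | hm | hm
    · refine ⟨0, a + b + 1, {ℓ'}, _, 0, _, CL.hole _, TL.node _ _ _ _ _ _ _ _ _ hR h1 h2, by simp, ?_,
        by simp⟩
      ext x; simp only [Set.mem_union, Set.mem_insert_iff, Set.mem_singleton_iff]; tauto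
    · obtain ⟨a', b', Y', Z', p, q, hc, ht, hn, hX, hm'⟩ := ih1 hm
      refine ⟨a' + b + 1, b', _, Z', _, q, CL.left _ _ _ _ _ _ _ _ _ _ hR hc h2, ht, by omega, ?_, ?_⟩
      · subst hX
        ext x; simp only [Set.mem_union, Set.mem_insert_iff]; tauto
      · subst hm'; rw [add_right_comm]
    · obtain ⟨a', b', Y', Z', p, q, hc, ht, hn, hX, hm'⟩ := ih2 hm
      refine ⟨a + a' + 1, b', _, Z', _, q, CL.right _ _ _ _ _ _ _ _ _ _ hR h1 hc, ht, by omega, ?_, ?_⟩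
      · subst hX
        ext x; simp only [Set.mem_union, Set.mem_insert_iff]; tauto
      · subst hm'; rw [add_assoc]

lemma TL.pump {n a : ℕ} {X Y : Set S.Λ} {ℓ ℓ' : S.Λ} {m p : Fin K → ℕ} (h : TL S n X ℓ m)
    (hm : ℓ' ∈ X) (hp : CL S a Y ℓ' ℓ' p) : TL S (n + a) (X ∪ Y) ℓ (m + p) := by
  obtain ⟨a', b', Y', Z', q, r, hc, ht, rfl, rfl, rfl⟩ := TL.extract h hm
  have := CL.plug hc (CL.plug hp ht)
  convert this using 1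
  · ring
  · ext x; simp only [Set.mem_union]; tauto
  · abel

lemma tr_iff {ℓ : S.Λ} {m : Fin K → ℕ} : Tr S ℓ m ↔ ∃ (n : ℕ) (X : Set S.Λ), TL S n X ℓ m := by
  constructor
  · intro h
    induction h with
    | leaf ℓ hl => exact ⟨_, _, TL.leaf ℓ hl⟩
    | node ℓ ℓ₁ ℓ₂ m₁ m₂ hR _ _ ih1 ih2 =>
      obtain ⟨a, X, h1⟩ := ih1
      obtain ⟨b, Y, h2⟩ := ih2
      exact ⟨_, _, TL.node _ _ _ _ _ _ _ _ _ hR h1 h2⟩
  · rintro ⟨n, X, h⟩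
    induction h with
    | leaf ℓ hl => exact Tr.leaf ℓ hl
    | node ℓ ℓ₁ ℓ₂ a b X Y m₁ m₂ hR _ _ ih1 ih2 => exact Tr.node _ _ _ _ _ hR ih1 ih2

/-- **T1.** -/
theorem T1_holds : TargetT1 := by
  intro K S
  refine ⟨?_, ?_, ?_, ?_, ?_, ?_, ?_⟩
  · intro a b X Y ℓ ℓ' m m' h h'; exact CL.plug h h'
  · intro a b X Y ℓ ℓ' ℓ'' m m' h h'; exact CL.comp h h'
  · intro n X ℓ ℓ' m h h'; exact TL.extract h h'
  · intro n a X Y ℓ ℓ' m p h h' h''; exact TL.pump h h' h''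
  · intro n X ℓ m h; exact TL.root_mem h
  · intro n X ℓ ℓ' m h; exact CL.root_mem h
  · intro ℓ m; exact tr_iff

end Pool.Agent.H95.CF
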