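import Pool.Agent.H95.CF.T1

set_option autoImplicit false

namespace Pool.Agent.H95.CF

open Pool.Agent.H5.CF

variable {K : ℕ} {S : Sys K}

lemma TL.supp {n : ℕ} {X : Set S.Λ} {ℓ : S.Λ} {m : Fin K → ℕ} (h : TL S n X ℓ m) :
      S.lo ℓ ≤ S.hi ℓ ∧ (∀ x, m x ≠ 0 → S.lo ℓ ≤ x ∧ (x : ℕ) ≤ S.hi ℓ) ∧
      (∀ ℓ' ∈ X, S.lo ℓ ≤ S.lo ℓ' ∧ S.lo ℓ' ≤ S.hi ℓ' ∧ S.hi ℓ' ≤ S.hi ℓ) ∧
      (∀ ℓ₁ ∈ X, ∀ ℓ₂ ∈ X, (S.lo ℓ₁ ≤ S.lo ℓ₂ ∧ S.hi ℓ₂ ≤ S.hi ℓ₁) ∨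
        (S.lo ℓ₂ ≤ S.lo ℓ₁ ∧ S.hi ℓ₁ ≤ S.hi ℓ₂) ∨ S.hi ℓ₁ ≤ S.lo ℓ₂ ∨ S.hi ℓ₂ ≤ S.lo ℓ₁) := by
  induction h with
  | leaf ℓ hl =>
    refine ⟨S.leaf_le ℓ hl, S.wt_supp ℓ hl, ?_, ?_⟩
    · intro ℓ' hℓ'
      rw [Set.mem_singleton_iff] at hℓ'
      subst hℓ'
      exact ⟨le_rfl, S.leaf_le _ hl, le_rfl⟩
    · intro ℓ₁ h1 ℓ₂ h2
      rw [Set.mem_singleton_iff] at h1 h2
      subst h1; subst h2
      exact Or.inl ⟨le_rfl, le_rfl⟩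
  | node ℓ ℓ₁ ℓ₂ a b X Y m₁ m₂ hR _ _ ih1 ih2 =>
    obtain ⟨a1, a2, a3, a4⟩ := ih1
    obtain ⟨b1, b2, b3, b4⟩ := ih2
    have r1 := S.R_lo _ _ _ hR
    have r2 := S.R_mid _ _ _ hR
    have r3 := S.R_hi _ _ _ hR
    have c3 : ∀ ℓ' ∈ insert ℓ (X ∪ Y), S.lo ℓ ≤ S.lo ℓ' ∧ S.lo ℓ' ≤ S.hi ℓ' ∧ S.hi ℓ' ≤ S.hi ℓ := by
      rintro ℓ' (rfl | h | h)
      · exact ⟨le_rfl, by omega, le_rfl⟩
      · have := a3 _ h
        omega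
      · have := b3 _ h
        omega
    refine ⟨by omega, ?_, c3, ?_⟩
    · intro x hx
      rw [Pi.add_apply] at hx
      by_cases h1 : m₁ x = 0
      · have h2 : m₂ x ≠ 0 := by omega
        have := b2 x h2
        omega
      · have := a2 x h1
        omega
    · intro l1 h1 l2 h2
      have c1 := c3 l1 h1
      have c2 := c3 l2 h2
      rcases h1 with rfl | h1 | h1
      · left; omega
      · rcases h2 with rfl | h2 | h2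
        · right; left; omega
        · exact a4 _ h1 _ h2
        · have := a3 _ h1
          have := b3 _ h2
          right; right; left; omega
      · rcases h2 with rfl | h2 | h2
        · right; left; omega
        · have := b3 _ h1
          have := a3 _ h2
          right; right; right; omega
        · exact b4 _ h1 _ h2

lemma CL.supp {n : ℕ} {X : Set S.Λ} {ℓ ℓ' : S.Λ} {m : Fin K → ℕ} (h : CL S n X ℓ ℓ' m)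
    (hl : S.lo ℓ' ≤ S.hi ℓ') :
      S.lo ℓ ≤ S.lo ℓ' ∧ S.hi ℓ' ≤ S.hi ℓ ∧
      ∀ x : Fin K, m x ≠ 0 → (S.lo ℓ ≤ x ∧ (x : ℕ) ≤ S.lo ℓ') ∨ (S.hi ℓ' ≤ x ∧ (x : ℕ) ≤ S.hi ℓ) := by
  induction h with
  | hole ℓ =>
    refine ⟨le_rfl, le_rfl, ?_⟩
    intro x hx
    exact absurd rfl hx
  | left ℓ ℓ₁ ℓ₂ ℓ' a b X Y m₁ m₂ hR hc ht ih =>
    obtain ⟨a1, a2, a3⟩ := ih hl
    obtain ⟨b1, b2, b3, b4⟩ := TL.supp ht
    have r1 := S.R_lo _ _ _ hR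
    have r2 := S.R_mid _ _ _ hR
    have r3 := S.R_hi _ _ _ hR
    refine ⟨by omega, by omega, ?_⟩
    intro x hx
    rw [Pi.add_apply] at hx
    by_cases h1 : m₁ x = 0
    · have h2 : m₂ x ≠ 0 := by omega
      have := b2 x h2
      omega
    · have := a3 x h1
      omega
  | right ℓ ℓ₁ ℓ₂ ℓ' a b X Y m₁ m₂ hR ht hc ih =>
    obtain ⟨a1, a2, a3⟩ := ih hl
    obtain ⟨b1, b2, b3, b4⟩ := TL.supp ht
    have r1 := S.R_lo _ _ _ hR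
    have r2 := S.R_mid _ _ _ hR
    have r3 := S.R_hi _ _ _ hR
    refine ⟨by omega, by omega, ?_⟩
    intro x hx
    rw [Pi.add_apply] at hx
    by_cases h1 : m₂ x = 0
    · have h2 : m₁ x ≠ 0 := by omega
      have := b2 x h2
      omega
    · have := a3 x h1
      omega

lemma strat_pumps {n : ℕ} {U : Set S.Λ} {ℓ₀ : S.Λ} {m : Fin K → ℕ} {Γ : Set (Fin K → ℕ)}
    (h : TL S n U ℓ₀ m)
    (hΓ : ∀ p ∈ Γ, ∃ ℓ ∈ U, ∃ (a : ℕ) (Y : Set S.Λ), Y ⊆ U ∧ CL S a Y ℓ ℓ p) : Strat Γ := by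
  obtain ⟨h1, h2, h3, h4⟩ := TL.supp h
  have key : ∀ p ∈ Γ, ∃ ℓ ∈ U, ∀ x : Fin K, p x ≠ 0 → (x : ℕ) = S.lo ℓ ∨ (x : ℕ) = S.hi ℓ := by
    intro p hp
    obtain ⟨ℓ, hℓ, a, Y, _, hc⟩ := hΓ p hp
    refine ⟨ℓ, hℓ, ?_⟩
    intro x hx
    have := (CL.supp hc (h3 ℓ hℓ).2.1).2.2 x hx
    omega
  constructor
  · intro v hv x y z hxy hyz vx vy vz
    obtain ⟨ℓ, hℓ, h5⟩ := key v hv
    have e1 := h5 x vx
    have e2 := h5 y vy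
    have e3 := h5 z vz
    have : (x : ℕ) < y := hxy
    have : (y : ℕ) < z := hyz
    omega
  · intro v hv v' hv' i j k l hij hjk hkl vi vk vj vl
    obtain ⟨ℓ, hℓ, h5⟩ := key v hv
    obtain ⟨ℓ', hℓ', h5'⟩ := key v' hv'
    have e1 := h5 i vi
    have e2 := h5 k vk
    have e3 := h5' j vj
    have e4 := h5' l vl
    have : (i : ℕ) < j := hij
    have : (j : ℕ) < k := hjk
    have : (k : ℕ) < l := hkl
    have c1 := (h3 ℓ hℓ).2.1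
    have c2 := (h3 ℓ' hℓ').2.1
    have := h4 ℓ hℓ ℓ' hℓ'
    omega

/-- **T2.** -/
theorem T2_holds : TargetT2 := by
  intro K S
  refine ⟨?_, ?_, ?_⟩
  · intro n X ℓ m h; exact TL.supp h
  · intro n X ℓ ℓ' m h hl; exact CL.supp h hl
  · intro n U ℓ₀ m Γ h hΓ; exact strat_pumps h hΓ

end Pool.Agent.H95.CF
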