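import Pool.Agent.H95.CF.T2B
import Pool.Agent.H65.CF.T7

/-!
# Complete family: the number of ideals of norm `n`, targets
-/

set_option autoImplicit false

open NumberField Module MeasureTheory Set Filter
open scoped nonZeroDivisors Real

namespace Pool.Agent.H95.CF

open Pool.Agent.H31.CN Pool.Agent.H65.CF

/-- the number of ideals of norm `n` -/
noncomputable def aI (K : Type) [Field K] [NumberField K] (n : ℕ) : ℕ :=
  Nat.card {J : Ideal (𝓞 K) // Ideal.absNorm J = n}

/-- (PFD) the number of the zeros of a form modulo `p`, and the prime ideals of norm `p`. -/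
def T_PFD : Prop :=
  ∀ (D : ℕ) (K : Type) [Field K] [NumberField K], 4 < D → Fd D → Module.finrank ℚ K = 2 →
    discr K = -(D : ℤ) → ∀ p : ℕ, p.Prime → (aI K p : ℤ) = 1 + ch p D ∧
      (ch p D = 1 ∨ ch p D = 0 ∨ ch p D = -1)

/-- (IDP) the recursion for the number of ideals of norm `n`. -/
def T_IDP : Prop :=
  ∀ (D : ℕ) (K : Type) [Field K] [NumberField K], 4 < D → Fd D → Module.finrank ℚ K = 2 →
    discr K = -(D : ℤ) → ∀ (p n : ℕ), p.Prime → 1 ≤ n →
    (aI K (p * n) : ℤ) = (1 + ch p D) * aI K n - ch p D * (if p ∣ n then aI K (n / p) else 0)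

/-- (CHD) the recursion for the divisor sums. -/
def T_CHD : Prop :=
  ∀ (D p n : ℕ), p.Prime → 1 ≤ n →
    aD (p * n) D = (1 + ((ch p D : ℤ) : ℝ)) * aD n D -
      ((ch p D : ℤ) : ℝ) * (if p ∣ n then aD (n / p) D else 0)

/-- (IDN) the number of ideals of norm `n`. -/
def T_IDN : Prop :=
  ∀ (D : ℕ) (K : Type) [Field K] [NumberField K], 4 < D → Fd D → Module.finrank ℚ K = 2 →
    discr K = -(D : ℤ) → ∀ n : ℕ, 1 ≤ n → (aI K n : ℝ) = aD n D

end Pool.Agent.H95.CF
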