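import Pool.Agent.H95.CF.T1

set_option autoImplicit false

namespace Pool.Agent.H95.CF

open Pool.Agent.H5.CF

variable {K : ℕ} {S : Sys K}

/-- a tree with root `ℓ` none of whose proper subtrees has label `ℓ` -/
def Simp (S : Sys K) (W : Set S.Λ) (ℓ : S.Λ) (n : ℕ) (m : Fin K → ℕ) : Prop :=
  (ℓ ∈ S.leaf ∧ m = S.wt ℓ ∧ n = 1) ∨
  ∃ (ℓ₁ ℓ₂ : S.Λ) (a b : ℕ) (X₁ X₂ : Set S.Λ) (m₁ m₂ : Fin K → ℕ),
    S.R ℓ ℓ₁ ℓ₂ ∧ TL S a X₁ ℓ₁ m₁ ∧ TL S b X₂ ℓ₂ m₂ ∧ X₁ ⊆ W \ {ℓ} ∧ X₂ ⊆ W \ {ℓ} ∧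
      m = m₁ + m₂ ∧ n = a + b + 1

lemma TL.split (W : Set S.Λ) (ℓ : S.Λ) : ∀ (n : ℕ) (X : Set S.Λ) (m : Fin K → ℕ),
    X ⊆ W → TL S n X ℓ m → ∃ (c : ℕ) (Y : Set S.Λ) (p : Fin K → ℕ) (n' : ℕ) (m' : Fin K → ℕ),
      CL S c Y ℓ ℓ p ∧ Y ⊆ W ∧ c + n' = n ∧ m = p + m' ∧ Simp S W ℓ n' m' := by
  intro n
  induction n using Nat.strong_induction_on with
  | _ n IH =>
    intro X m hXW h
    have hroot : ℓ ∈ W := hXW (TL.root_mem h).1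
    cases h with
    | leaf _ hl =>
      exact ⟨0, {ℓ}, 0, 1, S.wt ℓ, CL.hole ℓ, Set.singleton_subset_iff.2 hroot, rfl, by simp,
        Or.inl ⟨hl, rfl, rfl⟩⟩
    | node _ ℓ₁ ℓ₂ a b X Y m₁ m₂ hR h1 h2 =>
      have hX : X ⊆ W := fun x hx => hXW (Set.mem_insert_of_mem _ (Or.inl hx))
      have hY : Y ⊆ W := fun x hx => hXW (Set.mem_insert_of_mem _ (Or.inr hx))
      by_cases hx : ℓ ∈ X
      · obtain ⟨a', b', Y', Z', q, r, hc, ht, rfl, rfl, rfl⟩ := TL.extract h1 hx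
        obtain ⟨c, Y'', p, n', m', h3, h4, h5, h6, h7⟩ := IH b' (by omega) Z' r
          (fun x hx => hX (Or.inr hx)) ht
        have h8 := CL.left _ _ _ _ _ _ _ _ _ _ hR hc h2
        refine ⟨_, _, _, n', m', CL.comp h8 h3, ?_, ?_, ?_, h7⟩
        · rintro x ((rfl | hx | hx) | hx)
          · exact hroot
          · exact hX (Or.inl hx)
          · exact hY hx
          · exact h4 hx
        · omega
        · rw [h6]; abel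
      · by_cases hy : ℓ ∈ Y
        · obtain ⟨a', b', Y', Z', q, r, hc, ht, rfl, rfl, rfl⟩ := TL.extract h2 hy
          obtain ⟨c, Y'', p, n', m', h3, h4, h5, h6, h7⟩ := IH b' (by omega) Z' r
            (fun x hx => hY (Or.inr hx)) ht
          have h8 := CL.right _ _ _ _ _ _ _ _ _ _ hR h1 hc
          refine ⟨_, _, _, n', m', CL.comp h8 h3, ?_, ?_, ?_, h7⟩
          · rintro x ((rfl | hx | hx) | hx)
            · exact hroot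
            · exact hX hx
            · exact hY (Or.inl hx)
            · exact h4 hx
          · omega
          · rw [h6]; abel
        · refine ⟨0, {ℓ}, 0, a + b + 1, m₁ + m₂, CL.hole ℓ, Set.singleton_subset_iff.2 hroot,
            by omega, by simp, Or.inr ⟨ℓ₁, ℓ₂, a, b, X, Y, m₁, m₂, hR, h1, h2, ?_, ?_, rfl, rfl⟩⟩
          · intro x hx'
            exact ⟨hX hx', fun h => hx (h ▸ hx')⟩
          · intro x hx'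
            exact ⟨hY hx', fun h => hy (h ▸ hx')⟩

/-- The induction statement. -/
def PT (S : Sys K) (U W : Set S.Λ) : Prop :=
  ∃ F : S.Λ → Set (Fin K → ℕ), (∀ ℓ, (F ℓ).Finite) ∧
    (∀ ℓ, ∀ f ∈ F ℓ, ∃ (n : ℕ) (X : Set S.Λ), X ⊆ U ∧ TL S n X ℓ f) ∧
    ∀ (H : AddSubmonoid (Fin K → ℕ)) (N : ℕ),
      (∀ a < N, ∀ (ℓ : S.Λ) (Y : Set S.Λ) (p : Fin K → ℕ), Y ⊆ U → CL S a Y ℓ ℓ p → p ∈ H) →
      ∀ n ≤ N, ∀ (ℓ : S.Λ) (X : Set S.Λ) (m : Fin K → ℕ), X ⊆ W → TL S n X ℓ m →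
        ∃ f ∈ F ℓ, ∃ p ∈ H, m = f + p

lemma PT_all (S : Sys K) (U : Set S.Λ) : ∀ (k : ℕ) (W : Set S.Λ), W ⊆ U → W.ncard = k →
    PT S U W := by
  haveI := S.fin
  intro k
  induction k using Nat.strong_induction_on with
  | _ k IH =>
    intro W hWU hk
    have h1 : ∀ ℓ : S.Λ, ∃ F : S.Λ → Set (Fin K → ℕ), ℓ ∈ W → ((∀ ℓ, (F ℓ).Finite) ∧
      (∀ ℓ, ∀ f ∈ F ℓ, ∃ (n : ℕ) (X : Set S.Λ), X ⊆ U ∧ TL S n X ℓ f) ∧
      ∀ (H : AddSubmonoid (Fin K → ℕ)) (N : ℕ),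
        (∀ a < N, ∀ (ℓ : S.Λ) (Y : Set S.Λ) (p : Fin K → ℕ), Y ⊆ U → CL S a Y ℓ ℓ p → p ∈ H) →
        ∀ n ≤ N, ∀ (ℓ' : S.Λ) (X : Set S.Λ) (m : Fin K → ℕ), X ⊆ W \ {ℓ} → TL S n X ℓ' m →
          ∃ f ∈ F ℓ', ∃ p ∈ H, m = f + p) := by
      intro ℓ
      by_cases hℓ : ℓ ∈ W
      · have hlt : (W \ {ℓ}).ncard < k := by
          rw [← hk]
          exact Set.ncard_diff_singleton_lt_of_mem hℓ (Set.toFinite _)
        obtain ⟨F, hF⟩ := IH _ hlt (W \ {ℓ}) (fun x hx => hWU hx.1) rfl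
        exact ⟨F, fun _ => hF⟩
      · exact ⟨fun _ => ∅, fun h => absurd h hℓ⟩
    choose G hG using h1
    classical
    refine ⟨fun ℓ => if ℓ ∈ W then ({f | ℓ ∈ S.leaf ∧ f = S.wt ℓ} ∪
      ⋃ ℓ₁ : S.Λ, ⋃ ℓ₂ : S.Λ, {f | S.R ℓ ℓ₁ ℓ₂ ∧ ∃ f₁ ∈ G ℓ ℓ₁, ∃ f₂ ∈ G ℓ ℓ₂, f = f₁ + f₂})
      else ∅, ?_, ?_, ?_⟩
    · intro ℓ
      by_cases hℓ : ℓ ∈ W
      · simp only [hℓ, if_true]
        refine Set.Finite.union ?_ ?_
        · exact (Set.finite_singleton (S.wt ℓ)).subset (fun x hx => hx.2)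
        · refine Set.finite_iUnion fun ℓ₁ => Set.finite_iUnion fun ℓ₂ => ?_
          refine (Set.Finite.image2 (fun x y => x + y) ((hG ℓ hℓ).1 ℓ₁) ((hG ℓ hℓ).1 ℓ₂)).subset ?_
          rintro f ⟨_, f₁, h1, f₂, h2, rfl⟩
          exact ⟨f₁, h1, f₂, h2, rfl⟩
      · simp only [hℓ, if_false]
        exact Set.finite_empty
    · intro ℓ f hf
      by_cases hℓ : ℓ ∈ W
      · simp only [hℓ, if_true] at hf
        rcases hf with ⟨hl, rfl⟩ | hf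
        · exact ⟨1, {ℓ}, Set.singleton_subset_iff.2 (hWU hℓ), TL.leaf ℓ hl⟩
        · simp only [Set.mem_iUnion, Set.mem_setOf_eq] at hf
          obtain ⟨ℓ₁, ℓ₂, hR, f₁, h1, f₂, h2, rfl⟩ := hf
          obtain ⟨n₁, X₁, hX₁, t₁⟩ := (hG ℓ hℓ).2.1 ℓ₁ f₁ h1
          obtain ⟨n₂, X₂, hX₂, t₂⟩ := (hG ℓ hℓ).2.1 ℓ₂ f₂ h2
          refine ⟨_, _, ?_, TL.node _ _ _ _ _ _ _ _ _ hR t₁ t₂⟩
          rintro x (rfl | hx | hx)
          · exact hWU hℓ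
          · exact hX₁ hx
          · exact hX₂ hx
      · simp only [hℓ, if_false] at hf
        exact absurd hf (Set.notMem_empty _)
    · intro H N hH n hn ℓ X m hX ht
      have hℓ : ℓ ∈ W := hX (TL.root_mem ht).1
      obtain ⟨c, Y, p, n', m', hc, hY, hcn, rfl, hs⟩ := TL.split W ℓ n X m hX ht
      have hn' : 0 < n' := by
        rcases hs with ⟨_, _, h⟩ | ⟨_, _, _, _, _, _, _, _, _, _, _, _, _, _, h⟩ <;> omega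
      have hp : p ∈ H := hH c (by omega) ℓ Y p (hY.trans hWU) hc
      simp only [hℓ, if_true]
      rcases hs with ⟨hl, rfl, _⟩ | ⟨ℓ₁, ℓ₂, a, b, X₁, X₂, m₁, m₂, hR, t₁, t₂, hX₁, hX₂, rfl, hab⟩
      · exact ⟨S.wt ℓ, Or.inl ⟨hl, rfl⟩, p, hp, add_comm _ _⟩
      · obtain ⟨f₁, hf₁, p₁, hp₁, rfl⟩ := (hG ℓ hℓ).2.2 H N hH a (by omega) ℓ₁ X₁ m₁ hX₁ t₁
        obtain ⟨f₂, hf₂, p₂, hp₂, rfl⟩ := (hG ℓ hℓ).2.2 H N hH b (by omega) ℓ₂ X₂ m₂ hX₂ t₂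
        refine ⟨f₁ + f₂, Or.inr ?_, p + (p₁ + p₂), H.add_mem hp (H.add_mem hp₁ hp₂), by abel⟩
        simp only [Set.mem_iUnion, Set.mem_setOf_eq]
        exact ⟨ℓ₁, ℓ₂, hR, f₁, hf₁, f₂, hf₂, rfl⟩

/-- **T3a.** -/
theorem T3a_holds : TargetT3a := by
  intro K S U
  exact PT_all S U _ U le_rfl rfl

end Pool.Agent.H95.CF
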